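import Mathlib

/-!
# Elementary symmetric sums after the deletion of a few variables
-/

set_option autoImplicit false

namespace Pool.Agent.H977.RB

open Finset

/-- elementary symmetric sum -/
noncomputable def es (P : Finset ℕ) (w : ℕ → ℝ) (k : ℕ) : ℝ :=
  ∑ s ∈ P.powersetCard k, ∏ p ∈ s, w p

theorem dbl (P : Finset ℕ) (k : ℕ) (g : Finset ℕ → ℕ → ℝ) :
    ∑ s ∈ P.powersetCard (k + 1), ∑ p ∈ s, g (s.erase p) p =
      ∑ t ∈ P.powersetCard k, ∑ p ∈ P \ t, g t p := by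
  rw [Finset.sum_sigma', Finset.sum_sigma']
  refine Finset.sum_bij' (fun x _ => ⟨x.1.erase x.2, x.2⟩) (fun x _ => ⟨insert x.2 x.1, x.2⟩)
    ?_ ?_ ?_ ?_ ?_
  · rintro ⟨s, p⟩ h
    simp only [mem_sigma, mem_powersetCard, mem_sdiff] at h ⊢
    refine ⟨⟨(erase_subset _ _).trans h.1.1, ?_⟩, h.1.1 h.2, notMem_erase _ _⟩
    rw [card_erase_of_mem h.2, h.1.2]
    rfl
  · rintro ⟨t, p⟩ h
    simp only [mem_sigma, mem_powersetCard, mem_sdiff] at h ⊢
    refine ⟨⟨insert_subset h.2.1 h.1.1, ?_⟩, mem_insert_self _ _⟩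
    rw [card_insert_of_notMem h.2.2, h.1.2]
  · rintro ⟨s, p⟩ h
    simp only [mem_sigma] at h
    simp only [Sigma.mk.injEq, heq_eq_eq, and_true]
    exact insert_erase h.2
  · rintro ⟨t, p⟩ h
    simp only [mem_sigma, mem_sdiff] at h
    simp only [Sigma.mk.injEq, heq_eq_eq, and_true]
    exact erase_insert h.2.2
  · rintro ⟨s, p⟩ h
    rfl

theorem es_succ (P : Finset ℕ) (w : ℕ → ℝ) (k : ℕ) :
    ((k + 1 : ℕ) : ℝ) * es P w (k + 1) =
      ∑ t ∈ P.powersetCard k, (∏ q ∈ t, w q) * ∑ p ∈ P \ t, w p := by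
  have h := dbl P k (fun t p => w p * ∏ q ∈ t, w q)
  have e1 : ∑ s ∈ P.powersetCard (k + 1), ∑ p ∈ s, (w p * ∏ q ∈ s.erase p, w q) =
      ((k + 1 : ℕ) : ℝ) * es P w (k + 1) := by
    unfold es
    rw [Finset.mul_sum]
    refine Finset.sum_congr rfl fun s hs => ?_
    rw [Finset.sum_congr rfl (g := fun _ => ∏ q ∈ s, w q) (fun p hp => mul_prod_erase s w hp),
      Finset.sum_const, (mem_powersetCard.1 hs).2, nsmul_eq_mul]
  rw [← e1, h]
  refine Finset.sum_congr rfl fun t ht => ?_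
  rw [Finset.mul_sum]
  exact Finset.sum_congr rfl fun p _ => mul_comm _ _

variable {P : Finset ℕ} {w : ℕ → ℝ}

theorem es_nonneg (hw : ∀ p ∈ P, 0 ≤ w p) (k : ℕ) : 0 ≤ es P w k := by
  unfold es
  refine Finset.sum_nonneg fun s hs => Finset.prod_nonneg fun p hp => ?_
  exact hw p ((mem_powersetCard.1 hs).1 hp)

/-- `(k+1) e_{k+1} ≤ e_k W` -/
theorem es_succ_le (hw : ∀ p ∈ P, 0 ≤ w p) (k : ℕ) :
    ((k + 1 : ℕ) : ℝ) * es P w (k + 1) ≤ es P w k * ∑ p ∈ P, w p := by
  rw [es_succ]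
  unfold es
  rw [Finset.sum_mul]
  refine Finset.sum_le_sum fun t ht => ?_
  have ht' := (mem_powersetCard.1 ht).1
  refine mul_le_mul_of_nonneg_left ?_ (Finset.prod_nonneg fun p hp => hw p (ht' hp))
  exact Finset.sum_le_sum_of_subset_of_nonneg sdiff_subset (fun p hp _ => hw p hp)

/-- `(k+1) e_{k+1} ≥ e_k (W - 2 k)` -/
theorem le_es_succ (hw : ∀ p ∈ P, 0 ≤ w p) (hw2 : ∀ p ∈ P, w p ≤ 2) (k : ℕ) :
    es P w k * (∑ p ∈ P, w p - 2 * k) ≤ ((k + 1 : ℕ) : ℝ) * es P w (k + 1) := by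
  rw [es_succ]
  unfold es
  rw [Finset.sum_mul]
  refine Finset.sum_le_sum fun t ht => ?_
  obtain ⟨ht', htc⟩ := mem_powersetCard.1 ht
  refine mul_le_mul_of_nonneg_left ?_ (Finset.prod_nonneg fun p hp => hw p (ht' hp))
  have h1 : ∑ p ∈ P \ t, w p + ∑ p ∈ t, w p = ∑ p ∈ P, w p := Finset.sum_sdiff ht'
  have h2 : ∑ p ∈ t, w p ≤ 2 * k := by
    calc ∑ p ∈ t, w p ≤ ∑ _p ∈ t, (2 : ℝ) := Finset.sum_le_sum fun p hp => hw2 p (ht' hp)
      _ = 2 * k := by rw [Finset.sum_const, htc, nsmul_eq_mul, mul_comm]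
  linarith

theorem fact_es (hw : ∀ p ∈ P, 0 ≤ w p) (k : ℕ) :
    (k.factorial : ℝ) * es P w k ≤ (∑ p ∈ P, w p) ^ k := by
  induction k with
  | zero => simp [es]
  | succ k ih =>
    have h1 := es_succ_le hw k
    have hW : 0 ≤ ∑ p ∈ P, w p := Finset.sum_nonneg hw
    calc ((k + 1).factorial : ℝ) * es P w (k + 1) =
          (k.factorial : ℝ) * (((k + 1 : ℕ) : ℝ) * es P w (k + 1)) := by
          rw [Nat.factorial_succ]; push_cast; ring
      _ ≤ (k.factorial : ℝ) * (es P w k * ∑ p ∈ P, w p) := by gcongr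
      _ = ((k.factorial : ℝ) * es P w k) * ∑ p ∈ P, w p := by ring
      _ ≤ (∑ p ∈ P, w p) ^ k * ∑ p ∈ P, w p := by gcongr
      _ = _ := by rw [pow_succ]

/-- the sum of the weights is large -/
theorem W_low (hw : ∀ p ∈ P, 0 ≤ w p) {k : ℕ} (hk : 1 ≤ k) (hkn : k ≤ P.card)
    (hlow : (1 / 2 : ℝ) * (P.card.choose k : ℝ) ≤ es P w k) :
    ((P.card : ℝ) + 1 - k) / 2 ≤ ∑ p ∈ P, w p := by
  have hW : 0 ≤ ∑ p ∈ P, w p := Finset.sum_nonneg hw
  by_contra hcon
  push Not at hcon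
  have hx : (0 : ℝ) < (P.card : ℝ) + 1 - k := by
    have : (k : ℝ) ≤ P.card := by exact_mod_cast hkn
    linarith
  have h1 : (∑ p ∈ P, w p) ^ k < (((P.card : ℝ) + 1 - k) / 2) ^ k :=
    pow_lt_pow_left₀ hcon hW (by omega)
  have h2 : (((P.card : ℝ) + 1 - k) / 2) ^ k ≤ (1 / 2) * ((P.card : ℝ) + 1 - k) ^ k := by
    rw [div_pow, div_eq_inv_mul, ← one_div]
    refine mul_le_mul_of_nonneg_right ?_ (by positivity)
    rw [div_le_div_iff₀ (by positivity) (by norm_num)]
    have : (2 : ℝ) ^ 1 ≤ 2 ^ k := pow_le_pow_right₀ (by norm_num) hk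
    linarith
  have h3 := fact_es hw k
  have h4 : ((P.card : ℝ) + 1 - k) ^ k ≤ (k.factorial : ℝ) * (P.card.choose k : ℝ) := by
    have h5 := Nat.pow_sub_le_descFactorial P.card k
    rw [Nat.descFactorial_eq_factorial_mul_choose] at h5
    have h6 : (((P.card + 1 - k : ℕ) : ℝ)) = (P.card : ℝ) + 1 - k := by
      rw [Nat.cast_sub (by omega)]
      push_cast
      ring
    rw [← h6]
    exact_mod_cast h5
  have h5 : (k.factorial : ℝ) * ((1 / 2 : ℝ) * (P.card.choose k : ℝ)) ≤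
      (k.factorial : ℝ) * es P w k := by gcongr
  nlinarith

/-- Deleting few variables changes the elementary symmetric sum by at most a quarter. -/
theorem es_del (hw : ∀ p ∈ P, 0 ≤ w p) (hw2 : ∀ p ∈ P, w p ≤ 2) {k : ℕ} (hk : 1 ≤ k)
    (hkn : 10 * k ≤ P.card) (hlow : (1 / 2 : ℝ) * (P.card.choose k : ℝ) ≤ es P w k)
    (E : Finset ℕ) (hE : 32 * k * E.card ≤ P.card) :
    (3 / 4 : ℝ) * es P w k ≤
      ∑ s ∈ (P.powersetCard k).filter (fun s => Disjoint s E), ∏ p ∈ s, w p := by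
  obtain ⟨j, rfl⟩ : ∃ j, k = j + 1 := ⟨k - 1, by omega⟩
  have hWl := W_low hw hk (by omega) hlow
  obtain ⟨W, hW⟩ : ∃ W, W = ∑ p ∈ P, w p := ⟨_, rfl⟩
  rw [← hW] at hWl
  have hn : (10 : ℝ) * (j + 1) ≤ P.card := by exact_mod_cast hkn
  push_cast at hWl
  have h1 : (P.card : ℝ) / 4 ≤ W - 2 * j := by linarith
  have h2 := le_es_succ hw hw2 j
  rw [← hW] at h2
  have hj0 := es_nonneg hw j
  have h3 : es P w j * ((P.card : ℝ) / 4) ≤ ((j + 1 : ℕ) : ℝ) * es P w (j + 1) :=
    (mul_le_mul_of_nonneg_left h1 hj0).trans h2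
  -- the part which meets `E`
  have hsplit := Finset.sum_filter_add_sum_filter_not (P.powersetCard (j + 1))
    (fun s => Disjoint s E) (fun s => ∏ p ∈ s, w p)
  have hmeet : ∑ s ∈ (P.powersetCard (j + 1)).filter (fun s => ¬ Disjoint s E), ∏ p ∈ s, w p ≤
      2 * E.card * es P w j := by
    calc ∑ s ∈ (P.powersetCard (j + 1)).filter (fun s => ¬ Disjoint s E), ∏ p ∈ s, w p ≤
          ∑ s ∈ P.powersetCard (j + 1), ∑ p ∈ s, (if p ∈ E then (1 : ℝ) else 0) *
            (w p * ∏ q ∈ s.erase p, w q) := by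
          rw [Finset.sum_filter]
          refine Finset.sum_le_sum fun s hs => ?_
          have hs' := (mem_powersetCard.1 hs).1
          have hnn : ∀ p ∈ s, 0 ≤ (if p ∈ E then (1 : ℝ) else 0) *
              (w p * ∏ q ∈ s.erase p, w q) := by
            intro p hp
            rw [mul_prod_erase s w hp]
            refine mul_nonneg (by split_ifs <;> norm_num)
              (Finset.prod_nonneg fun q hq => hw q (hs' hq))
          by_cases hd : Disjoint s E
          · rw [if_neg (not_not.2 hd)]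
            exact Finset.sum_nonneg hnn
          · rw [if_pos hd]
            rw [Finset.not_disjoint_iff] at hd
            obtain ⟨p, hp, hpE⟩ := hd
            refine le_trans (le_of_eq ?_) (Finset.single_le_sum hnn hp)
            rw [if_pos hpE, one_mul, mul_prod_erase s w hp]
      _ = ∑ t ∈ P.powersetCard j, ∑ p ∈ P \ t, (if p ∈ E then (1 : ℝ) else 0) *
            (w p * ∏ q ∈ t, w q) :=
          dbl P j (fun t p => (if p ∈ E then (1 : ℝ) else 0) * (w p * ∏ q ∈ t, w q))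
      _ ≤ ∑ t ∈ P.powersetCard j, (2 * E.card) * ∏ q ∈ t, w q := by
          refine Finset.sum_le_sum fun t ht => ?_
          have ht' := (mem_powersetCard.1 ht).1
          have hp0 : 0 ≤ ∏ q ∈ t, w q := Finset.prod_nonneg fun q hq => hw q (ht' hq)
          calc ∑ p ∈ P \ t, (if p ∈ E then (1 : ℝ) else 0) * (w p * ∏ q ∈ t, w q) ≤
                ∑ p ∈ P \ t, (if p ∈ E then (2 * ∏ q ∈ t, w q) else 0) := by
                refine Finset.sum_le_sum fun p hp => ?_
                have h9 := hw2 p (mem_sdiff.1 hp).1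
                split_ifs
                · rw [one_mul]
                  gcongr
                · rw [zero_mul]
            _ ≤ ∑ p ∈ E, 2 * ∏ q ∈ t, w q := by
                rw [← Finset.sum_filter]
                refine Finset.sum_le_sum_of_subset_of_nonneg ?_ (fun _ _ _ => by positivity)
                intro p hp
                exact (mem_filter.1 hp).2
            _ = (2 * E.card) * ∏ q ∈ t, w q := by
                rw [Finset.sum_const, nsmul_eq_mul]
                ring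
      _ = 2 * E.card * es P w j := by
          unfold es
          rw [← Finset.mul_sum]
  have hE' : (32 : ℝ) * (j + 1) * E.card ≤ P.card := by exact_mod_cast hE
  have hn0 : (0 : ℝ) < P.card := by
    have : (0 : ℝ) ≤ j := by positivity
    linarith
  have hes : es P w (j + 1) = ∑ s ∈ P.powersetCard (j + 1), ∏ p ∈ s, w p := rfl
  have h6 : 2 * E.card * es P w j ≤ (1 / 4 : ℝ) * es P w (j + 1) := by
    have h7 : 2 * E.card * (es P w j * ((P.card : ℝ) / 4)) ≤
        2 * E.card * (((j + 1 : ℕ) : ℝ) * es P w (j + 1)) := by gcongr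
    have h8 := es_nonneg hw (j + 1)
    have h9 : 32 * ((j : ℝ) + 1) * E.card * es P w (j + 1) ≤ P.card * es P w (j + 1) := by gcongr
    push_cast at h7
    have h10 : (P.card : ℝ) * (2 * E.card * es P w j) ≤
        (P.card : ℝ) * ((1 / 4 : ℝ) * es P w (j + 1)) := by nlinarith
    exact le_of_mul_le_mul_left h10 hn0
  rw [hes] at h6 ⊢
  linarith

end Pool.Agent.H977.RB
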