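import Pool.Agent.H38R2.CG3.All
import Pool.Agent.H977.RB.Esym

/-!
# Every class without a few primes: from the second moment to the class group
-/

set_option autoImplicit false

namespace Pool.Agent.H977.RB

open Finset Filter NumberField Pool.Agent.H38R2.CG Pool.Agent.H38R2.CG2 Pool.Agent.H38R2.CG3
open Pool.Agent.H38R2.CG.FINh
open scoped Classical

/-- exceptional discriminants: the second moment is too large, or there are too few ideals -/
def BD2 (a : ℝ) (X D : ℕ) : Prop :=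
  Bd a (1 / 16) X D ∨ MD D (SA a X) (fun _ => 1) < (1 / 2) * NA a X

theorem as2 (hAS : P3_AS0) (hM : P2_MLOW) (hWT : P2_WT) (a : ℝ) (ha : 2 < a) :
    ∀ C0 : ℕ, 1 ≤ C0 → ∀ ε : ℝ, 0 < ε →
  ∃ z0 : ℕ, ∀ z ≥ z0,
  ∃ η1 : ℝ, 0 < η1 ∧ ∀ η : ℝ, 0 < η → η ≤ η1 → ∀ r : ℕ, FundRes z r → ∃ X0 : ℕ, ∀ X ≥ X0,
  ∀ ρ : ℕ → ℝ, SWt z X (PA a X) (cc a) C0 ρ →
    ∑ D ∈ (FD z r X η).filter (fun D => BD2 a X D), wt ρ D ≤ ε * WW z X η ρ := by
  intro C0 hC0 ε hε
  obtain ⟨z0, hz0⟩ := hAS a ha (1 / 16) (by norm_num) C0 hC0 (ε / 2) (by positivity)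
  refine ⟨z0, fun z hz => ?_⟩
  obtain ⟨η1, hη1, H⟩ := hz0 z hz
  refine ⟨min η1 1, lt_min hη1 one_pos, fun η h0 h1 r hr => ?_⟩
  obtain ⟨X0, hX0⟩ := H η h0 (h1.trans (min_le_left _ _)) r hr
  have hε' : 0 < min (ε / 2) (1 / 2) := lt_min (by positivity) (by norm_num)
  obtain ⟨X1, hX1⟩ := hM a ha z r hr η h0 (h1.trans (min_le_right _ _)) C0 hC0 _ hε'
  refine ⟨X0 + X1 + 1, fun X hX ρ hρ => ?_⟩
  have hcc : cc a ≤ 1 := by
    unfold cc
    rw [div_le_one (by linarith)]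
    linarith
  have hwt : ∀ D ∈ DD z r X η, 0 ≤ wt ρ D := by
    intro D hD
    simp only [DD, mem_filter, mem_Ioc] at hD
    exact (hWT z X (PA a X) (cc a) C0 ρ (by omega) hcc hρ D (by omega)).1
  have hWW : 0 ≤ WW z X η ρ := by
    have hGG : 0 ≤ GG X ρ := by
      refine le_trans ?_ hρ.low
      have : (1 : ℝ) ≤ X := by exact_mod_cast (by omega : 1 ≤ X)
      have := Real.log_nonneg this
      positivity
    unfold WW
    positivity
  have a1 := hX0 X (by omega) ρ hρ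
  have a2 := hX1 X (by omega) ρ hρ
  have hsub : (FD z r X η).filter (fun D => BD2 a X D) ⊆
      (FD z r X η).filter (fun D => Bd a (1 / 16) X D) ∪
      (DD z r X η).filter (fun D => MD D (SA a X) (fun _ => 1) <
        (1 - min (ε / 2) (1 / 2)) * NA a X) := by
    intro D hD
    rw [mem_filter] at hD
    rw [mem_union, mem_filter, mem_filter]
    rcases hD.2 with h | h
    · exact Or.inl ⟨hD.1, h⟩
    · refine Or.inr ⟨(mem_filter.1 hD.1).1, lt_of_lt_of_le h ?_⟩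
      have hN : 0 ≤ NA a X := by unfold NA CA; positivity
      refine mul_le_mul_of_nonneg_right ?_ hN
      have := min_le_right (ε / 2) (1 / 2 : ℝ)
      linarith
  have hnn : ∀ D ∈ (FD z r X η).filter (fun D => Bd a (1 / 16) X D) ∪
      (DD z r X η).filter (fun D => MD D (SA a X) (fun _ => 1) <
        (1 - min (ε / 2) (1 / 2)) * NA a X), 0 ≤ wt ρ D := by
    intro D hD
    rw [mem_union, mem_filter, mem_filter] at hD
    rcases hD with h | h
    · exact hwt D (mem_filter.1 h.1).1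
    · exact hwt D h.1
  have hun : ∑ D ∈ (FD z r X η).filter (fun D => Bd a (1 / 16) X D) ∪
      (DD z r X η).filter (fun D => MD D (SA a X) (fun _ => 1) <
        (1 - min (ε / 2) (1 / 2)) * NA a X), wt ρ D ≤
      ∑ D ∈ (FD z r X η).filter (fun D => Bd a (1 / 16) X D), wt ρ D +
      ∑ D ∈ (DD z r X η).filter (fun D => MD D (SA a X) (fun _ => 1) <
        (1 - min (ε / 2) (1 / 2)) * NA a X), wt ρ D := by
    rw [← Finset.sum_union_inter]
    refine le_add_of_nonneg_right (Finset.sum_nonneg fun D hD => ?_)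
    exact hnn D (mem_union_left _ (mem_inter.1 hD).1)
  have a3 := Finset.sum_le_sum_of_subset_of_nonneg hsub (fun D hD _ => hnn D hD)
  have a4 : min (ε / 2) (1 / 2) * WW z X η ρ ≤ ε / 2 * WW z X η ρ :=
    mul_le_mul_of_nonneg_right (min_le_left _ _) hWW
  linarith

/-- Every class is a product of classes of at most `n` prime ideals whose norms are primes at most `B`
outside `E`. -/
def RepAvoid (K : Type) [Field K] [NumberField K] (B n : ℝ) (E : Finset ℕ)
    (C : ClassGroup (𝓞 K)) (L : Multiset (nonZeroDivisors (Ideal (𝓞 K)))) : Prop :=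
  (∀ P ∈ L, (P : Ideal (𝓞 K)).IsPrime ∧ (Ideal.absNorm (P : Ideal (𝓞 K))).Prime ∧
      ((Ideal.absNorm (P : Ideal (𝓞 K)) : ℕ) : ℝ) ≤ B ∧
      Ideal.absNorm (P : Ideal (𝓞 K)) ∉ E) ∧
    (L.card : ℝ) ≤ n ∧ (L.map (fun P => ClassGroup.mk0 P)).prod = C

/-- The class group is reached without the primes of `E`. -/
theorem rep_of_good (hN0 : P_N0) (hN1 : P_N1) (hN3 : P_N3) (h4 : P_N4) (hKF : P_KF)
    (h5b : P_N5b) (hN6 : P_N6) (a : ℝ) (X D : ℕ) (hy : 2 ≤ yA a X) (hD : IsFund D)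
    (K : Type) [Field K] [NumberField K] (h2 : Module.finrank ℚ K = 2)
    (hK : NumberField.discr K = (D : ℤ)) (hgood : ¬ BD2 a X D)
    (hk1 : 1 ≤ kA a X) (hkn : 10 * kA a X ≤ (PA a X).card) (E : Finset ℕ)
    (hE : 32 * kA a X * E.card ≤ (PA a X).card)
    (B n : ℝ) (hB : 2 * (yA a X : ℝ) ≤ B) (hn : 2 * (kA a X : ℝ) ≤ n) (C : ClassGroup (𝓞 K)) :
    ∃ L, RepAvoid K B n E C L := by
  unfold BD2 at hgood
  push Not at hgood
  obtain ⟨hg1, hg2⟩ := hgood
  set k := kA a X with hkdef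
  set P := PA a X with hPdef
  set w : ℕ → ℝ := fun p => 1 + (chi D p : ℝ) with hw
  have hP2 : ∀ p ∈ P, p.Prime ∧ p ≠ 2 := by
    intro p hp
    simp only [hPdef, PA, PP, mem_filter, mem_Ioc] at hp
    exact ⟨hp.2, by omega⟩
  have hchi : ∀ p ∈ P, -1 ≤ (chi D p : ℝ) ∧ (chi D p : ℝ) ≤ 1 := by
    intro p hp
    have hodd : Odd p := (hP2 p hp).1.odd_of_ne_two (hP2 p hp).2
    rw [show chi (D : ℤ) p = jacobiSym (D : ℤ) p from KRh.chi_odd hodd]
    rcases jacobiSym.trichotomy (D : ℤ) p with h | h | h <;> rw [h] <;> norm_num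
  have hw0 : ∀ p ∈ P, 0 ≤ w p := fun p hp => by
    have := (hchi p hp).1
    simp only [hw]
    linarith
  have hw2 : ∀ p ∈ P, w p ≤ 2 := fun p hp => by
    have := (hchi p hp).2
    simp only [hw]
    linarith
  have hMes : MD D (SA a X) (fun _ => 1) = es P w k := by
    unfold MD es SA
    refine Finset.sum_congr rfl fun s _ => ?_
    rw [one_mul]
  have hlow : (1 / 2 : ℝ) * (P.card.choose k : ℝ) ≤ es P w k := by
    rw [← hMes]
    exact hg2
  have hdel := es_del hw0 hw2 hk1 hkn hlow E hE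
  -- the sets which avoid `E`
  set S := SA a X with hS
  set SE := S.filter (fun s => Disjoint s E) with hSE
  have hf : ∀ s ∈ S, (0 : ℝ) ≤ (fun _ : Finset ℕ => (1 : ℝ)) s ∧ ∀ p ∈ s, p.Prime ∧ p ≠ 2 := by
    intro s hs
    exact ⟨zero_le_one, fun p hp => hP2 p ((mem_powersetCard.1 hs).1 hp)⟩
  have hfE : ∀ s ∈ SE, (0 : ℝ) ≤ (fun _ : Finset ℕ => (1 : ℝ)) s ∧ ∀ p ∈ s, p.Prime ∧ p ≠ 2 :=
    fun s hs => hf s (mem_filter.1 hs).1
  obtain ⟨hA, hBB⟩ := nf_classes hN0 hN1 hN3 h4 hKF h5b hN6 K D hD h2 hK S (fun _ => 1) hf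
  obtain ⟨-, hBE⟩ := nf_classes hN0 hN1 hN3 h4 hKF h5b hN6 K D hD h2 hK SE (fun _ => 1) hfE
  set h : ℝ := (Nat.card (ClassGroup (𝓞 K)) : ℝ) with hh
  have hpos : 0 < h := by rw [hh]; exact_mod_cast Nat.card_pos
  set M := es P w k with hM
  have hMpos : 0 < M := by
    refine lt_of_lt_of_le ?_ hlow
    have : 0 < P.card.choose k := Nat.choose_pos (by omega)
    positivity
  rw [hMes] at hBB
  have hTE : (3 / 4 : ℝ) * M ≤ ∑ C' : ClassGroup (𝓞 K), MC K SE (fun _ => 1) C' := by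
    rw [hBE]
    unfold MD
    refine hdel.trans (le_of_eq ?_)
    refine Finset.sum_congr rfl fun s _ => ?_
    rw [one_mul]
  -- second moment
  have hsec : h * ∑ C' : ClassGroup (𝓞 K), (MC K S (fun _ => 1) C') ^ 2 < (17 / 16) * M ^ 2 := by
    refine lt_of_le_of_lt hA ?_
    unfold Bd at hg1
    push Not at hg1
    rw [hMes] at hg1
    refine lt_of_lt_of_eq hg1 (by norm_num)
  have hMCle : ∀ C' : ClassGroup (𝓞 K), 0 ≤ MC K SE (fun _ => 1) C' ∧
      MC K SE (fun _ => 1) C' ≤ MC K S (fun _ => 1) C' := by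
    intro C'
    constructor
    · unfold MC
      exact Finset.sum_nonneg fun s _ => by positivity
    · unfold MC
      exact Finset.sum_le_sum_of_subset_of_nonneg (filter_subset _ _) fun s _ _ => by positivity
  set H : Finset (ClassGroup (𝓞 K)) :=
    Finset.univ.filter (fun C' => 0 < MC K SE (fun _ => 1) C') with hH
  have hcardH : ((Finset.univ : Finset (ClassGroup (𝓞 K))).card : ℝ) = h := by
    rw [Finset.card_univ, hh, Nat.card_eq_fintype_card]
  have hsumH : (3 / 4 : ℝ) * M ≤ ∑ C' ∈ H, MC K S (fun _ => 1) C' := by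
    refine hTE.trans ?_
    calc ∑ C' : ClassGroup (𝓞 K), MC K SE (fun _ => 1) C' = ∑ C' ∈ H, MC K SE (fun _ => 1) C' := by
          rw [hH, Finset.sum_filter]
          refine Finset.sum_congr rfl fun C' _ => ?_
          split_ifs with h0
          · rfl
          · exact le_antisymm (not_lt.1 h0) (hMCle C').1
      _ ≤ _ := Finset.sum_le_sum fun C' _ => (hMCle C').2
  have hCS : (∑ C' ∈ H, MC K S (fun _ => 1) C') ^ 2 ≤
      H.card * ∑ C' ∈ H, (MC K S (fun _ => 1) C') ^ 2 := sq_sum_le_card_mul_sum_sq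
  have hHsub : ∑ C' ∈ H, (MC K S (fun _ => 1) C') ^ 2 ≤
      ∑ C' : ClassGroup (𝓞 K), (MC K S (fun _ => 1) C') ^ 2 :=
    Finset.sum_le_sum_of_subset_of_nonneg (Finset.subset_univ _) fun _ _ _ => sq_nonneg _
  have hHbig : h < 2 * (H.card : ℝ) := by
    by_contra hcon
    push Not at hcon
    have e1 : ((3 / 4 : ℝ) * M) ^ 2 ≤ (∑ C' ∈ H, MC K S (fun _ => 1) C') ^ 2 :=
      pow_le_pow_left₀ (by positivity) hsumH 2
    have e2 : (H.card : ℝ) * ∑ C' ∈ H, (MC K S (fun _ => 1) C') ^ 2 ≤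
        (h / 2) * ∑ C' : ClassGroup (𝓞 K), (MC K S (fun _ => 1) C') ^ 2 := by
      refine mul_le_mul (by linarith) hHsub (Finset.sum_nonneg fun _ _ => sq_nonneg _)
        (by positivity)
    have e3 : (h / 2) * ∑ C' : ClassGroup (𝓞 K), (MC K S (fun _ => 1) C') ^ 2 =
        (1 / 2) * (h * ∑ C' : ClassGroup (𝓞 K), (MC K S (fun _ => 1) C') ^ 2) := by ring
    have e4 : 0 < M ^ 2 := by positivity
    nlinarith
  -- pigeonhole
  have hex : ∃ C1 ∈ H, C * C1⁻¹ ∈ H := by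
    by_contra hcon
    push Not at hcon
    have hdisj : Disjoint H (H.image (fun C1 => C * C1⁻¹)) := by
      rw [Finset.disjoint_right]
      intro C2 hC2 hC2'
      obtain ⟨C1, hC1, rfl⟩ := Finset.mem_image.1 hC2
      exact hcon C1 hC1 hC2'
    have hinj : (H.image (fun C1 => C * C1⁻¹)).card = H.card := by
      apply Finset.card_image_of_injective
      intro x y hxy
      simpa using hxy
    have h3 : (H ∪ H.image (fun C1 => C * C1⁻¹)).card ≤
        (Finset.univ : Finset (ClassGroup (𝓞 K))).card := Finset.card_le_card (Finset.subset_univ _)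
    rw [Finset.card_union_of_disjoint hdisj, hinj] at h3
    have h4' : (H.card : ℝ) + H.card ≤ h := by
      rw [← hcardH]
      exact_mod_cast h3
    linarith
  obtain ⟨C1, hC1, hC2⟩ := hex
  have hex2 : ∀ C' ∈ H, ∃ L : Multiset (nonZeroDivisors (Ideal (𝓞 K))),
      (∀ Q ∈ L, (Q : Ideal (𝓞 K)).IsPrime ∧ (Ideal.absNorm (Q : Ideal (𝓞 K))).Prime ∧
        ((Ideal.absNorm (Q : Ideal (𝓞 K)) : ℕ) : ℝ) ≤ B ∧
        Ideal.absNorm (Q : Ideal (𝓞 K)) ∉ E) ∧
      L.card = k ∧ (L.map (fun Q => ClassGroup.mk0 Q)).prod = C' := by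
    intro C' hC'
    have h5 := (Finset.mem_filter.1 hC').2
    unfold MC at h5
    obtain ⟨s, hs, hs'⟩ := Finset.exists_ne_zero_of_sum_ne_zero h5.ne'
    have hne : Nonempty {I : nonZeroDivisors (Ideal (𝓞 K)) //
        Ideal.absNorm (I : Ideal (𝓞 K)) = prodS s ∧ ClassGroup.mk0 I = C'} := by
      by_contra hemp
      rw [not_nonempty_iff] at hemp
      apply hs'
      rw [Nat.card_of_isEmpty]
      simp
    obtain ⟨I, hI1, hI2⟩ := hne
    obtain ⟨hsS, hsE⟩ := Finset.mem_filter.1 hs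
    have hsP := Finset.mem_powersetCard.1 hsS
    have hsprime : ∀ p ∈ s, p.Prime := fun p hp => (hP2 p (hsP.1 hp)).1
    obtain ⟨L, hL1, hL2, hL3⟩ := factor K s hsprime I hI1
    refine ⟨L, ?_, ?_, ?_⟩
    · intro Q hQ
      have hQs := (hL1 Q hQ).2
      refine ⟨(hL1 Q hQ).1, hsprime _ hQs, ?_, ?_⟩
      · have h6 := hsP.1 hQs
        simp only [hPdef, PA, PP, Finset.mem_filter, Finset.mem_Ioc] at h6
        have h7 : ((Ideal.absNorm (Q : Ideal (𝓞 K)) : ℕ) : ℝ) ≤ 2 * (yA a X : ℝ) := by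
          exact_mod_cast h6.1.2
        exact h7.trans hB
      · exact Finset.disjoint_left.1 hsE hQs
    · rw [hL2, hsP.2]
    · rw [hL3, hI2]
  obtain ⟨L1, a1, a2, a3⟩ := hex2 C1 hC1
  obtain ⟨L2, b1, b2, b3⟩ := hex2 _ hC2
  refine ⟨L1 + L2, ?_, ?_, ?_⟩
  · intro Q hQ
    rcases Multiset.mem_add.1 hQ with h | h
    · exact a1 Q h
    · exact b1 Q h
  · rw [Multiset.card_add, a2, b2]
    push_cast
    linarith
  · rw [Multiset.map_add, Multiset.prod_add, a3, b3]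
    exact mul_inv_cancel_comm_assoc C1 C

end Pool.Agent.H977.RB
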