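import Pool.Agent.H977.RB.Main

/-!
# Consequences of the generation of the class group without a few small primes
-/

set_option autoImplicit false

namespace Pool.Agent.H977.RB

open Finset Filter NumberField
open scoped Classical

section

variable {K : Type} [Field K] [NumberField K] {B n T : ℝ}

/-- many primes outside every proper subgroup -/
theorem many_outside (h : ∀ E : Finset ℕ, 1000 * (E.card : ℝ) ≤ T →
    ∀ C : ClassGroup (𝓞 K), ∃ L, RepAvoid K B n E C L) (H : Subgroup (ClassGroup (𝓞 K)))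
    (hH : H ≠ ⊤) :
    T < 1000 * (((Finset.Icc 1 ⌊B⌋₊).filter (fun p => p.Prime ∧
      ∃ P : nonZeroDivisors (Ideal (𝓞 K)), (P : Ideal (𝓞 K)).IsPrime ∧
        Ideal.absNorm (P : Ideal (𝓞 K)) = p ∧ ClassGroup.mk0 P ∉ H)).card : ℝ) := by
  by_contra hcon
  push Not at hcon
  apply hH
  rw [eq_top_iff]
  intro C _
  obtain ⟨L, h1, h2, h3⟩ := h _ hcon C
  rw [← h3]
  refine Subgroup.multiset_prod_mem _ _ fun c hc => ?_
  obtain ⟨P, hP, rfl⟩ := Multiset.mem_map.1 hc
  obtain ⟨a1, a2, a3, a4⟩ := h1 P hP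
  by_contra hPH
  apply a4
  rw [Finset.mem_filter, Finset.mem_Icc]
  exact ⟨⟨a2.one_lt.le, Nat.le_floor a3⟩, a2, P, a1, rfl, hPH⟩

theorem RepAvoid.mono {E E' : Finset ℕ} (hE : E' ⊆ E) {C : ClassGroup (𝓞 K)}
    {L : Multiset (nonZeroDivisors (Ideal (𝓞 K)))} (h : RepAvoid K B n E C L) :
    RepAvoid K B n E' C L :=
  ⟨fun P hP => ⟨(h.1 P hP).1, (h.1 P hP).2.1, (h.1 P hP).2.2.1,
    fun h' => (h.1 P hP).2.2.2 (hE h')⟩, h.2.1, h.2.2⟩

/-- many disjoint representations -/
theorem many_disjoint (hn : 0 ≤ n) (h : ∀ E : Finset ℕ, 1000 * (E.card : ℝ) ≤ T →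
    ∀ C : ClassGroup (𝓞 K), ∃ L, RepAvoid K B n E C L) (C : ClassGroup (𝓞 K)) (m : ℕ)
    (hm : 1000 * (m * n) ≤ T) :
    ∃ L : Fin (m + 1) → Multiset (nonZeroDivisors (Ideal (𝓞 K))),
      (∀ i, RepAvoid K B n ∅ C (L i)) ∧
      ∀ i j, i ≠ j → ∀ P ∈ L i, ∀ Q ∈ L j,
        Ideal.absNorm (P : Ideal (𝓞 K)) ≠ Ideal.absNorm (Q : Ideal (𝓞 K)) := by
  induction m with
  | zero =>
    obtain ⟨L, hL⟩ := h ∅ (by simpa using hm) C
    refine ⟨fun _ => L, fun _ => hL, fun i j hij => ?_⟩
    exact absurd (Subsingleton.elim (α := Fin 1) i j) hij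
  | succ m ih =>
    have hm' : 1000 * ((m : ℝ) * n) ≤ T := by
      push_cast at hm
      nlinarith
    obtain ⟨L, hL1, hL2⟩ := ih hm'
    set E : Finset ℕ := Finset.univ.biUnion (fun i : Fin (m + 1) =>
      ((L i).map (fun P : nonZeroDivisors (Ideal (𝓞 K)) =>
        Ideal.absNorm (P : Ideal (𝓞 K)))).toFinset) with hE
    have hEc : 1000 * (E.card : ℝ) ≤ T := by
      have h1 : E.card ≤ ∑ i : Fin (m + 1), (L i).card := by
        refine Finset.card_biUnion_le.trans (Finset.sum_le_sum fun i _ => ?_)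
        refine (Multiset.toFinset_card_le _).trans ?_
        rw [Multiset.card_map]
      have h2 : (E.card : ℝ) ≤ ∑ i : Fin (m + 1), ((L i).card : ℝ) := by exact_mod_cast h1
      have h3 : ∑ i : Fin (m + 1), ((L i).card : ℝ) ≤ ∑ i : Fin (m + 1), n :=
        Finset.sum_le_sum fun i _ => (hL1 i).2.1
      rw [Finset.sum_const, Finset.card_univ, Fintype.card_fin, nsmul_eq_mul] at h3
      linarith
    obtain ⟨L', hL'⟩ := h E hEc C
    refine ⟨Fin.snoc (α := fun _ => Multiset (nonZeroDivisors (Ideal (𝓞 K)))) L L', ?_, ?_⟩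
    · intro i
      refine Fin.lastCases ?_ (fun i => ?_) i
      · rw [Fin.snoc_last]
        exact hL'.mono (Finset.empty_subset _)
      · rw [Fin.snoc_castSucc]
        exact hL1 i
    · have key : ∀ i : Fin (m + 1), ∀ P ∈ L i, ∀ Q ∈ L',
          Ideal.absNorm (P : Ideal (𝓞 K)) ≠ Ideal.absNorm (Q : Ideal (𝓞 K)) := by
        intro i P hP Q hQ heq
        apply (hL'.1 Q hQ).2.2.2
        rw [hE, Finset.mem_biUnion]
        refine ⟨i, Finset.mem_univ _, ?_⟩
        rw [Multiset.mem_toFinset, Multiset.mem_map]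
        exact ⟨P, hP, heq⟩
      intro i j
      refine Fin.lastCases ?_ (fun i => ?_) i
      · refine Fin.lastCases ?_ (fun j => ?_) j
        · intro hij
          exact absurd rfl hij
        · intro _ P hP Q hQ
          rw [Fin.snoc_last] at hP
          rw [Fin.snoc_castSucc] at hQ
          exact (key j Q hQ P hP).symm
      · refine Fin.lastCases ?_ (fun j => ?_) j
        · intro _ P hP Q hQ
          rw [Fin.snoc_castSucc] at hP
          rw [Fin.snoc_last] at hQ
          exact key i P hP Q hQ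
        · intro hij P hP Q hQ
          rw [Fin.snoc_castSucc] at hP hQ
          exact hL2 i j (fun h => hij (by rw [h])) P hP Q hQ

end

end Pool.Agent.H977.RB
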