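import Pool.Agent.Y892.UF.W8
import Pool.Agent.Y892.UF.G2

/-!
# From few exceptional discriminants to 100% of the radicands

A general form of the final steps of `Pool.Agent.H38R2.CG3.Fin` and `Pool.Agent.Y892.UF.W3`-`W7` (the
text is adapted from there) for an arbitrary property `GE` of radicands and an arbitrary exceptional
set `BD` of discriminants.
-/

set_option autoImplicit false

namespace Pool.Agent.H977.RB

open Finset Filter NumberField Pool.Agent.H38R2.CG Pool.Agent.H38R2.CG.AS1h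
open Pool.Agent.H38R2.CG2 hiding RR
open Pool.Agent.H38R2.CG2.APh (wt_nonneg wt_one res_cop)
open Pool.Agent.H38R2.CG.FINh
open Pool.Agent.H38R2.CG3 (NR NR_le NR_mono NR_add le_Dof fin_all fin_primes P3_AS0)
open Pool.Agent.Y892.UF (RR SR cc_bd small_dvd_Qz isFund_pq swt_lft GG_lft lft wt_pq Semi WZ PA_sub
  WZ_sum cnt_T SR_ge Dof_semi lower wt_one8 res_cop8 Two P3 La La_nonneg La_tendsto mem_P3 block
  P3_lower sum_un_le)
open scoped Classical

/-- few exceptional discriminants, in the weighted sense -/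
def ASg (a : ℝ) (BD : ℕ → ℕ → Prop) : Prop := ∀ C0 : ℕ, 1 ≤ C0 → ∀ ε : ℝ, 0 < ε →
  ∃ z0 : ℕ, ∀ z ≥ z0,
  ∃ η1 : ℝ, 0 < η1 ∧ ∀ η : ℝ, 0 < η → η ≤ η1 → ∀ r : ℕ, FundRes z r → ∃ X0 : ℕ, ∀ X ≥ X0,
  ∀ ρ : ℕ → ℝ, SWt z X (PA a X) (cc a) C0 ρ →
    ∑ D ∈ (FD z r X η).filter (fun D => BD X D), wt ρ D ≤ ε * WW z X η ρ

/-- exceptional radicands have exceptional discriminants -/
def Excg (BD : ℕ → ℕ → Prop) (GE : ℕ → Prop) : Prop :=
  ∃ X1 : ℕ, ∀ X : ℕ, X1 ≤ X → ∀ d : ℕ, 1 < d → Squarefree d → ¬ GE d → X < Dof d →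
      Dof d ≤ 2 * X → IsFund (Dof d) ∧ BD X (Dof d)


/-- few exceptional discriminants in a short interval -/
theorem short_all (ht : P2_TRIV) (a : ℝ) (ha : 2 < a) (BD : ℕ → ℕ → Prop) (h : ASg a BD)
    (ε : ℝ) (hε : 0 < ε) : ∃ η : ℝ, 0 < η ∧ η ≤ 1 ∧ ∃ X0 : ℕ, ∀ X ≥ X0,
    (((Finset.Ioc X ⌊(1 + η) * X⌋₊).filter (fun D => IsFund D ∧ BD X D)).card : ℝ) ≤
      ε * η * X := by
  obtain ⟨z0, hz0⟩ := h 1 le_rfl ε hε
  obtain ⟨η1, hη1, H⟩ := hz0 z0 le_rfl
  have hηpos : 0 < min η1 1 := lt_min hη1 one_pos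
  refine ⟨min η1 1, hηpos, min_le_right _ _, ?_⟩
  have H' : ∀ r : ℕ, ∃ X0 : ℕ, ∀ X ≥ X0, FundRes z0 r → ∀ ρ : ℕ → ℝ,
      SWt z0 X (PA a X) (cc a) 1 ρ →
      ∑ D ∈ (FD z0 r X (min η1 1)).filter (fun D => BD X D), wt ρ D ≤
        ε * WW z0 X (min η1 1) ρ := by
    intro r
    by_cases hr : FundRes z0 r
    · obtain ⟨X0, hX0⟩ := H (min η1 1) hηpos (min_le_left _ _) r hr
      exact ⟨X0, fun X hX _ => hX0 X hX⟩
    · exact ⟨0, fun X _ hr' => absurd hr' hr⟩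
  choose X0 hX0 using H'
  refine ⟨max 3 ((Finset.range (Qz z0)).sup X0), ?_⟩
  intro X hX
  have hX3 : 3 ≤ X := le_trans (le_max_left _ _) hX
  have hXs : (Finset.range (Qz z0)).sup X0 ≤ X := le_trans (le_max_right _ _) hX
  have hcc : 0 < cc a := by
    unfold cc
    apply div_pos <;> linarith
  obtain ⟨hSW, hGG, hwt⟩ := ht z0 X (PA a X) (cc a) 1 hX3 hcc le_rfl
    (fun p hp => (Finset.mem_filter.1 hp).2)
  set η := min η1 1 with hη
  set ρ : ℕ → ℝ := fun d => if d = 1 then 1 else 0 with hρ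
  have hWW : WW z0 X η ρ = η * X / Qz z0 := by
    unfold WW
    rw [hGG, mul_one]
  set S := (Finset.Ioc X ⌊(1 + η) * X⌋₊).filter (fun D => IsFund D ∧ BD X D) with hS
  have hcard : S.card = ∑ r ∈ Finset.range (Qz z0), (S.filter (fun D => D % Qz z0 = r)).card := by
    apply Finset.card_eq_sum_card_fiberwise
    intro D _
    simp only [Finset.coe_range, Set.mem_Iio]
    exact Nat.mod_lt _ (Qz_pos z0)
  have hQ : (0 : ℝ) < Qz z0 := by exact_mod_cast Qz_pos z0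
  have hnn : 0 ≤ ε * (η * X / Qz z0) := by positivity
  have hle : ∀ r ∈ Finset.range (Qz z0),
      ((S.filter (fun D => D % Qz z0 = r)).card : ℝ) ≤ ε * (η * X / Qz z0) := by
    intro r hr
    by_cases hfr : FundRes z0 r
    · have h1 := hX0 r X (le_trans (Finset.le_sup hr) hXs) hfr ρ hSW
      rw [hWW] at h1
      refine le_trans ?_ h1
      have hcardsum : ∑ D ∈ (FD z0 r X η).filter (fun D => BD X D), wt ρ D =
          (((FD z0 r X η).filter (fun D => BD X D)).card : ℝ) := by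
        rw [Finset.card_eq_sum_ones]
        push_cast
        apply Finset.sum_congr rfl
        intro D hD
        apply hwt
        have h2 := (Finset.mem_filter.1 (Finset.mem_filter.1 hD).1).2
        exact h2.1.le
      rw [hcardsum]
      have : (S.filter (fun D => D % Qz z0 = r)) ⊆
          ((FD z0 r X η).filter (fun D => BD X D)) := by
        intro D hD
        simp only [hS, FD, DD, Finset.mem_filter] at hD ⊢
        exact ⟨⟨⟨hD.1.1, hD.2⟩, hD.1.2.1⟩, hD.1.2.2⟩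
      exact_mod_cast Finset.card_le_card this
    · have : (S.filter (fun D => D % Qz z0 = r)) = ∅ := by
        rw [Finset.filter_eq_empty_iff]
        intro D hD hDr
        apply hfr
        rw [← hDr]
        exact fundRes z0 D (Finset.mem_filter.1 hD).2.1
      rw [this]
      simpa using hnn
  rw [hcard]
  push_cast
  refine le_trans (Finset.sum_le_sum hle) ?_
  rw [Finset.sum_const, Finset.card_range, nsmul_eq_mul]
  have : (Qz z0 : ℝ) * (ε * (η * X / Qz z0)) = ε * η * X := by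
    field_simp
  rw [this]



open APh in
/-- few exceptional prime discriminants in a short interval -/
theorem short_primes (hBH : P2_BH) (hRC : P2_RC) (a : ℝ) (ha : 2 < a)
    (BD : ℕ → ℕ → Prop) (hAS : ASg a BD) (ε : ℝ) (hε : 0 < ε) : ∃ η : ℝ, 0 < η ∧ η ≤ 1 ∧ ∃ X0 : ℕ, ∀ X ≥ X0,
    (((Finset.Ioc X ⌊(1 + η) * X⌋₊).filter (fun D => (∃ p : ℕ, p.Prime ∧ (D = p ∨ D = 4 * p)) ∧
      IsFund D ∧ BD X D)).card : ℝ) ≤ ε * η * X / Real.log X := by
  have ha1 : 0 < a - 1 := by linarith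
  have hcc0 : 0 < cc a := by
    unfold cc
    exact div_pos (by linarith) (by linarith)
  have hcc1 : cc a ≤ 1 / 2 := by
    unfold cc
    rw [div_le_iff₀ (by linarith)]
    linarith
  obtain ⟨C0, hC0, hB⟩ := hBH (cc a) hcc0 (by linarith)
  have hC0' : (1 : ℝ) ≤ C0 := by exact_mod_cast hC0
  obtain ⟨z0, hz0⟩ := hAS C0 hC0 (ε / C0) (by positivity)
  set z := max 2 z0 with hz
  have hz2 : 2 ≤ z := le_max_left _ _
  obtain ⟨η1, hη1, H⟩ := hz0 z (le_max_right _ _)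
  obtain ⟨XB, hXB⟩ := hB z hz2 a ha
  have hηpos : 0 < min η1 1 := lt_min hη1 one_pos
  refine ⟨min η1 1, hηpos, min_le_right _ _, ?_⟩
  set η := min η1 1 with hη
  have H' : ∀ r : ℕ, ∃ X0 : ℕ, ∀ X ≥ X0, ∀ ρ : ℕ → ℝ, SWt z X (PA a X) (cc a) C0 ρ →
      FundRes z r →
      ∑ D ∈ (FD z r X η).filter (fun D => BD X D), wt ρ D ≤ ε / C0 * WW z X η ρ := by
    intro r
    by_cases hr : FundRes z r
    · obtain ⟨X0, hX0⟩ := H η hηpos (min_le_left _ _) r hr
      exact ⟨X0, fun X hX ρ hρ _ => hX0 X hX ρ hρ⟩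
    · exact ⟨0, fun X _ ρ _ hr' => absurd hr' hr⟩
  choose X0 hX0 using H'
  refine ⟨max (max ((Finset.range (Qz z)).sup X0) XB) (max 17 (4 * z)), ?_⟩
  intro X hX
  have hX1 : (Finset.range (Qz z)).sup X0 ≤ X :=
    (le_max_left _ _).trans ((le_max_left _ _).trans hX)
  have hX2 : XB ≤ X := (le_max_right _ _).trans ((le_max_left _ _).trans hX)
  have hX3 : 17 ≤ X := (le_max_left _ _).trans ((le_max_right _ _).trans hX)
  have hX4 : 4 * z ≤ X := (le_max_right _ _).trans ((le_max_right _ _).trans hX)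
  obtain ⟨ρ, hρ, hρ1, hGG⟩ := hXB X hX2
  have hX17 : (17 : ℝ) ≤ X := by exact_mod_cast hX3
  have hlog : 0 < Real.log X := Real.log_pos (by linarith)
  have hGpos : 0 ≤ GG X ρ := le_trans (by positivity) hρ.low
  set S := (Finset.Ioc X ⌊(1 + η) * X⌋₊).filter (fun D =>
    (∃ p : ℕ, p.Prime ∧ (D = p ∨ D = 4 * p)) ∧ IsFund D ∧ BD X D) with hS
  have hcard : S.card = ∑ r ∈ Finset.range (Qz z), (S.filter (fun D => D % Qz z = r)).card := by
    apply Finset.card_eq_sum_card_fiberwise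
    intro D _
    simp only [Finset.coe_range, Set.mem_Iio]
    exact Nat.mod_lt _ (AS1h.Qz_pos z)
  have hQ : (0 : ℝ) < Qz z := by exact_mod_cast AS1h.Qz_pos z
  have hW : 0 ≤ ε / C0 * WW z X η ρ := by
    unfold WW
    positivity
  have hle : ∀ r ∈ Finset.range (Qz z),
      ((S.filter (fun D => D % Qz z = r)).card : ℝ) ≤
        if (∀ q ∈ (Finset.Icc 3 z).filter Nat.Prime, ¬ q ∣ r) then ε / C0 * WW z X η ρ else 0 := by
    intro r hr
    by_cases hfr : FundRes z r ∧ ∀ q ∈ (Finset.Icc 3 z).filter Nat.Prime, ¬ q ∣ r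
    · rw [if_pos hfr.2]
      refine le_trans ?_ (hX0 r X (le_trans (Finset.le_sup hr) hX1) ρ hρ hfr.1)
      have hsub : (S.filter (fun D => D % Qz z = r)) ⊆
          ((FD z r X η).filter (fun D => BD X D)) := by
        intro D hD
        simp only [hS, FD, DD, Finset.mem_filter] at hD ⊢
        exact ⟨⟨⟨hD.1.1, hD.2⟩, hD.1.2.2.1⟩, hD.1.2.2.2⟩
      have e1 : ((S.filter (fun D => D % Qz z = r)).card : ℝ) =
          ∑ D ∈ S.filter (fun D => D % Qz z = r), wt ρ D := by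
        rw [Finset.sum_congr rfl (g := fun _ => (1 : ℝ)), Finset.sum_const, nsmul_eq_mul, mul_one]
        intro D hD
        simp only [hS, Finset.mem_filter, Finset.mem_Ioc] at hD
        obtain ⟨p, hp, hDp⟩ := hD.1.2.1
        exact wt_one hX3 hcc1 hρ hρ1 hD.1.1.1 hp hDp
      rw [e1]
      refine Finset.sum_le_sum_of_subset_of_nonneg hsub ?_
      intro D hD _
      simp only [FD, DD, Finset.mem_filter, Finset.mem_Ioc] at hD
      exact wt_nonneg (by omega) (by linarith) hρ D (by omega)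
    · have hemp : (S.filter (fun D => D % Qz z = r)) = ∅ := by
        rw [Finset.filter_eq_empty_iff]
        intro D hD hDr
        apply hfr
        simp only [hS, Finset.mem_filter, Finset.mem_Ioc] at hD
        obtain ⟨p, hp, hDp⟩ := hD.2.1
        rw [← hDr]
        exact ⟨AS1h.fundRes z D hD.2.2.1, res_cop hD.1.1 hp hDp hX4⟩
      rw [hemp, Finset.card_empty, Nat.cast_zero]
      split_ifs
      · exact hW
      · exact le_rfl
  rw [hcard]
  push_cast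
  refine le_trans (Finset.sum_le_sum hle) ?_
  rw [← Finset.sum_filter, Finset.sum_const, nsmul_eq_mul]
  have hRC' : ∀ inst : DecidablePred fun r : ℕ =>
      ∀ q ∈ (Finset.Icc 3 z).filter Nat.Prime, ¬ q ∣ r,
      (((@Finset.filter ℕ (fun r : ℕ => ∀ q ∈ (Finset.Icc 3 z).filter Nat.Prime, ¬ q ∣ r) inst
        (Finset.range (Qz z))).card : ℕ) : ℝ) =
      Qz z * ∏ q ∈ (Finset.Icc 3 z).filter Nat.Prime, (1 - (1 : ℝ) / q) := by
    intro inst
    have h5 := hRC z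
    convert h5
  refine (le_of_eq (congrArg (fun t : ℝ => t * (ε / C0 * WW z X η ρ)) (hRC' _))).trans ?_
  show (Qz z : ℝ) * (∏ q ∈ (Finset.Icc 3 z).filter Nat.Prime, (1 - (1 : ℝ) / q)) *
    (ε / C0 * WW z X η ρ) ≤ ε * η * X / Real.log X
  unfold WW
  have e2 : (Qz z : ℝ) * (∏ q ∈ (Finset.Icc 3 z).filter Nat.Prime, (1 - (1 : ℝ) / q)) *
      (ε / C0 * (η * X / Qz z * GG X ρ)) = ε / C0 * (η * X) *
        (GG X ρ * ∏ q ∈ (Finset.Icc 3 z).filter Nat.Prime, (1 - (1 : ℝ) / q)) := by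
    field_simp
  rw [e2]
  calc ε / C0 * (η * X) *
        (GG X ρ * ∏ q ∈ (Finset.Icc 3 z).filter Nat.Prime, (1 - (1 : ℝ) / q))
      ≤ ε / C0 * (η * X) * (C0 / Real.log X) :=
        mul_le_mul_of_nonneg_left hGG (by positivity)
    _ = ε * η * X / Real.log X := by
        field_simp




/-- the theorem for all squarefree integers -/
theorem finalE (ht : P2_TRIV) (a : ℝ) (ha : 2 < a)
    (BD : ℕ → ℕ → Prop) (hAS : ASg a BD) (GE : ℕ → Prop) (hE : Excg BD GE) :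
    Tendsto (fun X : ℕ =>
      (((Finset.Icc 2 X).filter (fun d => Squarefree d ∧ ¬ GE d)).card : ℝ) / X)
      atTop (nhds 0) := by
  suffices hs : ∀ δ : ℝ, 0 < δ → ∃ η : ℝ, 0 < η ∧ η ≤ 1 ∧ ∃ X0 : ℕ, ∀ X ≥ X0,
      (((Finset.Ioc X ⌊(1 + η) * (X : ℝ)⌋₊).filter
        (fun D => ∃ d : ℕ, 1 < d ∧ Squarefree d ∧ ¬ GE d ∧ D = Dof d)).card : ℝ) ≤
        δ * η * X by
    have key := fin_all (fun d => ¬ GE d) hs
    convert key
  intro δ hδ
  obtain ⟨η, hη, hη1, X0, hX0⟩ := short_all ht a ha BD hAS δ hδ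
  obtain ⟨X1, hX1⟩ := hE
  refine ⟨η, hη, hη1, max X0 X1, fun X hX => ?_⟩
  refine le_trans ?_ (hX0 X (le_trans (le_max_left _ _) hX))
  have hsub : ((Finset.Ioc X ⌊(1 + η) * (X : ℝ)⌋₊).filter
        (fun D => ∃ d : ℕ, 1 < d ∧ Squarefree d ∧ ¬ GE d ∧ D = Dof d)) ⊆
      (Finset.Ioc X ⌊(1 + η) * (X : ℝ)⌋₊).filter
        (fun D => IsFund D ∧ BD X D) := by
    intro D hD
    rw [Finset.mem_filter] at hD ⊢
    obtain ⟨hD1, d, hd1, hds, hg, rfl⟩ := hD
    refine ⟨hD1, ?_⟩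
    refine hX1 X (le_trans (le_max_right _ _) hX) d hd1 hds hg (Finset.mem_Ioc.1 hD1).1 ?_
    have h1 := (Finset.mem_Ioc.1 hD1).2
    have h2 : ((⌊(1 + η) * (X : ℝ)⌋₊ : ℕ) : ℝ) ≤ (1 + η) * (X : ℝ) :=
      Nat.floor_le (by positivity)
    have h3 : (Dof d : ℝ) ≤ (⌊(1 + η) * (X : ℝ)⌋₊ : ℝ) := by exact_mod_cast h1
    have h5 : (Dof d : ℝ) ≤ 2 * (X : ℝ) := by
      have : (0 : ℝ) ≤ X := by positivity
      nlinarith
    exact_mod_cast h5
  exact_mod_cast Finset.card_le_card hsub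

/-- the theorem for primes -/
theorem finalEP (hNB : P_NB) (hBH : P2_BH) (hRC : P2_RC) (a : ℝ) (ha : 2 < a)
    (BD : ℕ → ℕ → Prop) (hAS : ASg a BD) (GE : ℕ → Prop) (hE : Excg BD GE) :
    Tendsto (fun X : ℕ =>
      (((Finset.Icc 2 X).filter (fun p => p.Prime ∧ ¬ GE p)).card : ℝ) /
        (((Finset.Icc 2 X).filter Nat.Prime).card : ℝ))
      atTop (nhds 0) := by
  suffices hs : ∀ δ : ℝ, 0 < δ → ∃ η : ℝ, 0 < η ∧ η ≤ 1 ∧ ∃ X0 : ℕ, ∀ X ≥ X0,
      (((Finset.Ioc X ⌊(1 + η) * (X : ℝ)⌋₊).filter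
        (fun D => ∃ p : ℕ, p.Prime ∧ ¬ GE p ∧ D = Dof p)).card : ℝ) ≤
        δ * η * X / Real.log X by
    have key := fin_primes hNB (fun d => ¬ GE d) hs
    convert key
  intro δ hδ
  obtain ⟨η, hη, hη1, X0, hX0⟩ := short_primes hBH hRC a ha BD hAS δ hδ
  obtain ⟨X1, hX1⟩ := hE
  refine ⟨η, hη, hη1, max X0 X1, fun X hX => ?_⟩
  refine le_trans ?_ (hX0 X (le_trans (le_max_left _ _) hX))
  have hsub : ((Finset.Ioc X ⌊(1 + η) * (X : ℝ)⌋₊).filter
        (fun D => ∃ p : ℕ, p.Prime ∧ ¬ GE p ∧ D = Dof p)) ⊆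
      (Finset.Ioc X ⌊(1 + η) * (X : ℝ)⌋₊).filter
        (fun D => (∃ p : ℕ, p.Prime ∧ (D = p ∨ D = 4 * p)) ∧
          IsFund D ∧ BD X D) := by
    intro D hD
    rw [Finset.mem_filter] at hD ⊢
    obtain ⟨hD1, p, hp, hg, rfl⟩ := hD
    refine ⟨hD1, ⟨p, hp, ?_⟩, ?_⟩
    · unfold Dof
      split_ifs <;> simp
    refine hX1 X (le_trans (le_max_right _ _) hX) p hp.one_lt hp.squarefree hg
      (Finset.mem_Ioc.1 hD1).1 ?_
    have h1 := (Finset.mem_Ioc.1 hD1).2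
    have h2 : ((⌊(1 + η) * (X : ℝ)⌋₊ : ℕ) : ℝ) ≤ (1 + η) * (X : ℝ) :=
      Nat.floor_le (by positivity)
    have h3 : (Dof p : ℝ) ≤ (⌊(1 + η) * (X : ℝ)⌋₊ : ℝ) := by exact_mod_cast h1
    have h5 : (Dof p : ℝ) ≤ 2 * (X : ℝ) := by
      have : (0 : ℝ) ≤ X := by positivity
      nlinarith
    exact_mod_cast h5
  exact_mod_cast Finset.card_le_card hsub


theorem short_semi (hBH : P2_BH) (hRC : P2_RC) (a : ℝ) (ha : 2 < a)
    (BD : ℕ → ℕ → Prop) (hAS : ASg a BD) (ε : ℝ) (hε : 0 < ε) : ∃ z : ℕ, 2 ≤ z ∧ ∃ η : ℝ, 0 < η ∧ η ≤ 1 ∧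
    ∃ X0 : ℕ, ∀ X ≥ X0, 1 ≤ SR a z X →
    (((Finset.Ioc X ⌊(1 + η) * X⌋₊).filter (fun D => (∃ p ∈ RR a z X, ∃ q : ℕ, q.Prime ∧
      q % 4 = 3 ∧ D = p * q) ∧ BD X D)).card : ℝ) ≤ ε * η * X * SR a z X / Real.log X := by
  obtain ⟨hcc0, hcc1⟩ := cc_bd ha
  obtain ⟨C0, hC0, hB⟩ := hBH (cc a / 2) (by linarith) (by linarith)
  have hC0' : (1 : ℝ) ≤ C0 := by exact_mod_cast hC0
  obtain ⟨z0, hz0⟩ := hAS (C0 * (6 + 2 * C0))
    (Nat.one_le_iff_ne_zero.2 (Nat.mul_ne_zero (by omega) (by omega)))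
    (2 * ε / (3 * C0)) (by positivity)
  obtain ⟨z, hz⟩ : ∃ z, z = max (2 * C0) (max 2 z0) := ⟨_, rfl⟩
  have hz2 : 2 ≤ z := by rw [hz]; exact le_trans (le_max_left _ _) (le_max_right _ _)
  have hzC : 2 * C0 ≤ z := by rw [hz]; exact le_max_left _ _
  have hzz : z0 ≤ z := by rw [hz]; exact le_trans (le_max_right _ _) (le_max_right _ _)
  obtain ⟨η1, hη1, H⟩ := hz0 z hzz
  obtain ⟨XB, hXB⟩ := hB z hz2 a ha
  have hηpos : 0 < min η1 1 := lt_min hη1 one_pos
  refine ⟨z, hz2, min η1 1, hηpos, min_le_right _ _, ?_⟩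
  set η := min η1 1 with hη
  have H' : ∀ r : ℕ, ∃ X0 : ℕ, ∀ X ≥ X0, ∀ ρ : ℕ → ℝ,
      SWt z X (PA a X) (cc a) (C0 * (6 + 2 * C0)) ρ → FundRes z r →
      ∑ D ∈ (FD z r X η).filter (fun D => BD X D), wt ρ D ≤
        2 * ε / (3 * C0) * WW z X η ρ := by
    intro r
    by_cases hr : FundRes z r
    · obtain ⟨X0, hX0⟩ := H η hηpos (min_le_left _ _) r hr
      exact ⟨X0, fun X hX ρ hρ _ => hX0 X hX ρ hρ⟩
    · exact ⟨0, fun X _ ρ _ hr' => absurd hr' hr⟩
  choose X0 hX0 using H'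
  refine ⟨max (max ((Finset.range (Qz z)).sup X0) XB) 17, ?_⟩
  intro X hX hSR
  have hX1 : (Finset.range (Qz z)).sup X0 ≤ X :=
    (le_max_left _ _).trans ((le_max_left _ _).trans hX)
  have hX2 : XB ≤ X := (le_max_right _ _).trans ((le_max_left _ _).trans hX)
  have hX3 : 17 ≤ X := (le_max_right _ _).trans hX
  obtain ⟨ρ, hρ, hρ1, hGG⟩ := hXB X hX2
  have hX17 : (17 : ℝ) ≤ X := by exact_mod_cast hX3
  have hlog : 0 < Real.log X := Real.log_pos (by linarith)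
  have hGpos : 0 ≤ GG X ρ := le_trans (by positivity) hρ.low
  have hR : ∀ p ∈ RR a z X, p.Prime ∧ (p : ℝ) ≤ (X : ℝ) ^ (cc a / 2) := by
    intro p hp
    simp only [RR, mem_filter] at hp
    exact ⟨hp.2.1, hp.2.2.2.2.2⟩
  have hRz : ∀ p ∈ RR a z X, z < p := by
    intro p hp
    simp only [RR, mem_filter] at hp
    exact hp.2.2.2.1
  have hRP : ∀ p ∈ RR a z X, p ∉ PA a X := by
    intro p hp
    simp only [RR, mem_filter] at hp
    exact hp.2.2.2.2.1
  have hPP : ∀ q ∈ PA a X, q.Prime := by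
    intro q hq
    simp only [PA, PP, mem_filter] at hq
    exact hq.2
  have hR2 : ∀ p ∈ RR a z X, 2 * C0 ≤ p := fun p hp => by
    have := hRz p hp
    omega
  have hSW : SWt z X (PA a X) (cc a) (C0 * (6 + 2 * C0)) (lft (RR a z X) (Real.log X) ρ) := by
    have h1 := swt_lft (by omega) (by linarith) (by linarith) hC0 hz2 hρ hPP hR hR2 hRz hRP hSR
    have e : 2 * (cc a / 2) = cc a := by ring
    rwa [e] at h1
  have hGL := (GG_lft (L := Real.log X) (by omega) (by linarith) (by linarith) hρ hlog hGpos hR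
    hR2).2
  have hsd : SR a z X = ∑ p ∈ RR a z X, 1 / (p : ℝ) := rfl
  rw [← hsd] at hGL
  set S := (Finset.Ioc X ⌊(1 + η) * X⌋₊).filter (fun D =>
    (∃ p ∈ RR a z X, ∃ q : ℕ, q.Prime ∧ q % 4 = 3 ∧ D = p * q) ∧ BD X D) with hS
  -- the larger prime factor
  have hbig : ∀ p ∈ RR a z X, ∀ q : ℕ, q.Prime → X < p * q →
      (X : ℝ) ^ (cc a / 2) < q ∧ z < q ∧ p ≠ q := by
    intro p hp q hq hXq
    obtain ⟨hpp, hpX⟩ := hR p hp
    have h1 : (X : ℝ) < (p : ℝ) * q := by exact_mod_cast hXq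
    have hq0 : (0 : ℝ) < q := by exact_mod_cast hq.pos
    have h2 : (X : ℝ) ^ (cc a / 2) * (X : ℝ) ^ (cc a / 2) ≤ X := by
      rw [← Real.rpow_add (by linarith)]
      calc (X : ℝ) ^ (cc a / 2 + cc a / 2) ≤ (X : ℝ) ^ (1 : ℝ) :=
            Real.rpow_le_rpow_of_exponent_le (by linarith) (by linarith)
        _ = X := Real.rpow_one _
    have h3 : (X : ℝ) ^ (cc a / 2) < q := by
      by_contra hcon
      push Not at hcon
      have : (p : ℝ) * q ≤ (X : ℝ) ^ (cc a / 2) * (X : ℝ) ^ (cc a / 2) := by gcongr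
      linarith
    have h4 : (p : ℝ) < q := lt_of_le_of_lt hpX h3
    have h5 : p < q := by exact_mod_cast h4
    have := hRz p hp
    exact ⟨h3, by omega, by omega⟩
  have hcard : S.card = ∑ r ∈ Finset.range (Qz z), (S.filter (fun D => D % Qz z = r)).card := by
    apply Finset.card_eq_sum_card_fiberwise
    intro D _
    simp only [Finset.coe_range, Set.mem_Iio]
    exact Nat.mod_lt _ (AS1h.Qz_pos z)
  have hQ : (0 : ℝ) < Qz z := by exact_mod_cast AS1h.Qz_pos z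
  have hGl0 : 0 ≤ GG X (lft (RR a z X) (Real.log X) ρ) := le_trans (by positivity) hSW.low
  have hW : 0 ≤ 2 * ε / (3 * C0) * WW z X η (lft (RR a z X) (Real.log X) ρ) := by
    unfold WW
    positivity
  have hle : ∀ r ∈ Finset.range (Qz z),
      ((S.filter (fun D => D % Qz z = r)).card : ℝ) ≤
        if (∀ q ∈ (Finset.Icc 3 z).filter Nat.Prime, ¬ q ∣ r) then
          Real.log X * (2 * ε / (3 * C0) * WW z X η (lft (RR a z X) (Real.log X) ρ)) else 0 := by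
    intro r hr
    by_cases hfr : FundRes z r ∧ ∀ q ∈ (Finset.Icc 3 z).filter Nat.Prime, ¬ q ∣ r
    · rw [if_pos hfr.2]
      refine le_trans ?_ (mul_le_mul_of_nonneg_left
        (hX0 r X (le_trans (Finset.le_sup hr) hX1) _ hSW hfr.1) hlog.le)
      have hsub : (S.filter (fun D => D % Qz z = r)) ⊆
          ((FD z r X η).filter (fun D => BD X D)) := by
        intro D hD
        simp only [hS, FD, DD, Finset.mem_filter, Finset.mem_Ioc] at hD ⊢
        obtain ⟨⟨hD1, ⟨p, hp, q, hq, hq4, hDpq⟩, hDb⟩, hDr⟩ := hD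
        refine ⟨⟨⟨hD1, hDr⟩, ?_⟩, hDb⟩
        have hbq := hbig p hp q hq (by rw [← hDpq]; exact hD1.1)
        have hp4 : p % 4 = 3 := by
          simp only [RR, mem_filter] at hp
          exact hp.2.2.1
        rw [hDpq]
        exact isFund_pq (hR p hp).1 hq hbq.2.2 hp4 hq4
      have e1 : ((S.filter (fun D => D % Qz z = r)).card : ℝ) =
          Real.log X * ∑ D ∈ S.filter (fun D => D % Qz z = r),
            wt (lft (RR a z X) (Real.log X) ρ) D := by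
        rw [Finset.mul_sum, Finset.sum_congr rfl (g := fun _ => (1 : ℝ)), Finset.sum_const,
          nsmul_eq_mul, mul_one]
        intro D hD
        simp only [hS, Finset.mem_filter, Finset.mem_Ioc] at hD
        obtain ⟨⟨hD1, ⟨p, hp, q, hq, hq4, hDpq⟩, hDb⟩, hDr⟩ := hD
        have hbq := hbig p hp q hq (by rw [← hDpq]; exact hD1.1)
        rw [hDpq, wt_pq (by omega) hρ hρ1 hR hp hq hbq.1]
        field_simp
      rw [e1]
      refine mul_le_mul_of_nonneg_left ?_ hlog.le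
      refine Finset.sum_le_sum_of_subset_of_nonneg hsub ?_
      intro D hD _
      simp only [FD, DD, Finset.mem_filter, Finset.mem_Ioc] at hD
      exact wt_nonneg (by omega) (by linarith) hSW D (by omega)
    · have hemp : (S.filter (fun D => D % Qz z = r)) = ∅ := by
        rw [Finset.filter_eq_empty_iff]
        intro D hD hDr
        apply hfr
        simp only [hS, Finset.mem_filter, Finset.mem_Ioc] at hD
        obtain ⟨hD1, ⟨p, hp, q, hq, hq4, hDpq⟩, hDb⟩ := hD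
        have hbq := hbig p hp q hq (by rw [← hDpq]; exact hD1.1)
        have hp4 : p % 4 = 3 := by
          simp only [RR, mem_filter] at hp
          exact hp.2.2.1
        rw [← hDr]
        refine ⟨AS1h.fundRes z D (by rw [hDpq]; exact isFund_pq (hR p hp).1 hq hbq.2.2 hp4 hq4),
          ?_⟩
        intro l hl hdvd
        have hlD : l ∣ D := (Nat.dvd_mod_iff (small_dvd_Qz hl)).1 hdvd
        obtain ⟨hl1, hlp⟩ := Finset.mem_filter.1 hl
        obtain ⟨hl3, hlz⟩ := Finset.mem_Icc.1 hl1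
        rw [hDpq] at hlD
        have := hRz p hp
        rcases (Nat.Prime.dvd_mul hlp).1 hlD with h2 | h2
        · have := (Nat.prime_dvd_prime_iff_eq hlp (hR p hp).1).1 h2
          omega
        · have := (Nat.prime_dvd_prime_iff_eq hlp hq).1 h2
          omega
      rw [hemp, Finset.card_empty, Nat.cast_zero]
      split_ifs
      · positivity
      · exact le_rfl
  rw [hcard]
  push_cast
  refine le_trans (Finset.sum_le_sum hle) ?_
  rw [← Finset.sum_filter, Finset.sum_const, nsmul_eq_mul]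
  have hRC' : ∀ inst : DecidablePred fun r : ℕ =>
      ∀ q ∈ (Finset.Icc 3 z).filter Nat.Prime, ¬ q ∣ r,
      (((@Finset.filter ℕ (fun r : ℕ => ∀ q ∈ (Finset.Icc 3 z).filter Nat.Prime, ¬ q ∣ r) inst
        (Finset.range (Qz z))).card : ℕ) : ℝ) =
      Qz z * ∏ q ∈ (Finset.Icc 3 z).filter Nat.Prime, (1 - (1 : ℝ) / q) := by
    intro inst
    have h5 := hRC z
    convert h5
  refine (le_of_eq (congrArg (fun t : ℝ => t * (Real.log X * (2 * ε / (3 * C0) *
    WW z X η (lft (RR a z X) (Real.log X) ρ)))) (hRC' _))).trans ?_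
  show (Qz z : ℝ) * (∏ q ∈ (Finset.Icc 3 z).filter Nat.Prime, (1 - (1 : ℝ) / q)) *
    (Real.log X * (2 * ε / (3 * C0) * WW z X η (lft (RR a z X) (Real.log X) ρ))) ≤
      ε * η * X * SR a z X / Real.log X
  have hprod : 0 ≤ ∏ q ∈ (Finset.Icc 3 z).filter Nat.Prime, (1 - (1 : ℝ) / q) := by
    apply prod_nonneg
    intro q hq
    have hq3 := (Finset.mem_Icc.1 (Finset.mem_filter.1 hq).1).1
    have : (1 : ℝ) ≤ q := by exact_mod_cast (by omega : 1 ≤ q)
    rw [sub_nonneg, div_le_one (by linarith)]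
    exact this
  have hSR0 : 0 ≤ SR a z X := by linarith
  unfold WW
  calc (Qz z : ℝ) * (∏ q ∈ (Finset.Icc 3 z).filter Nat.Prime, (1 - (1 : ℝ) / q)) *
        (Real.log X * (2 * ε / (3 * C0) * (η * X / Qz z *
          GG X (lft (RR a z X) (Real.log X) ρ))))
      ≤ (Qz z : ℝ) * (∏ q ∈ (Finset.Icc 3 z).filter Nat.Prime, (1 - (1 : ℝ) / q)) *
        (Real.log X * (2 * ε / (3 * C0) * (η * X / Qz z *
          (3 / 2 * SR a z X * GG X ρ / Real.log X)))) := by gcongr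
    _ = ε / C0 * (η * X) * SR a z X *
        (GG X ρ * ∏ q ∈ (Finset.Icc 3 z).filter Nat.Prime, (1 - (1 : ℝ) / q)) := by
        field_simp
    _ ≤ ε / C0 * (η * X) * SR a z X * (C0 / Real.log X) :=
        mul_le_mul_of_nonneg_left hGG (by positivity)
    _ = ε * η * X * SR a z X / Real.log X := by
        field_simp


theorem upper (hBH : P2_BH) (hRC : P2_RC) (a : ℝ) (ha : 2 < a)
    (BD : ℕ → ℕ → Prop) (hAS : ASg a BD) (GE : ℕ → Prop) (hE : Excg BD GE) (δ : ℝ) (hδ : 0 < δ) :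
    ∃ C : ℝ, 0 ≤ C ∧ ∃ Z1 : ℕ, ∀ Z ≥ Z1,
      (((Finset.Ioc 0 Z).filter (fun D => Semi D ∧ ¬ GE D)).card : ℝ) ≤
        δ * La Z * (Z / Real.log Z) + C * (Z / Real.log Z) := by
  obtain ⟨hcc0, hcc1⟩ := cc_bd ha
  obtain ⟨z, hz2, η, hη, hη1, X0, hX0⟩ := short_semi hBH hRC a ha BD hAS (δ / 4) (by positivity)
  obtain ⟨X1, hX1⟩ := hE
  obtain ⟨X2, hX2⟩ := SR_ge a ha z
  obtain ⟨Z1, hZ1⟩ := PA_sub a ha
  obtain ⟨L, hL0, hCH1, hCH2, hCH3⟩ := T2_CH
  obtain ⟨m, hm⟩ : ∃ m : ℕ, (1 / 2 : ℝ) ^ m < cc a / 4 :=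
    exists_pow_lt_of_lt_one (by linarith) (by norm_num)
  obtain ⟨Y0, hY0⟩ := PFh.sqrt_small (6 / η + 2 * ((X0 : ℝ) + X1 + X2) + 2) 1 one_pos
  refine ⟨1 + 4 * L * ((z : ℝ) + L + m * L), by positivity, max (max Z1 Y0) 16, fun Z hZ => ?_⟩
  have hZa : Z1 ≤ Z := (le_max_left _ _).trans ((le_max_left _ _).trans hZ)
  have hZb : Y0 ≤ Z := (le_max_right _ _).trans ((le_max_left _ _).trans hZ)
  have hZ16 : 16 ≤ Z := (le_max_right _ _).trans hZ
  obtain ⟨hu, hW⟩ := hZ1 Z hZa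
  have hYZ := hY0 Z hZb
  have hZr : (16 : ℝ) ≤ Z := by exact_mod_cast hZ16
  have hlZ : 0 < Real.log Z := Real.log_pos (by linarith)
  have hsZ : 0 ≤ √(Z : ℝ) := Real.sqrt_nonneg _
  have hLa : 0 ≤ La Z := La_nonneg Z
  obtain ⟨G, hG⟩ : ∃ G : ℕ → Prop, ∀ D, G D ↔ (D ≤ Z ∧ ¬ GE D ∧ ∃ p q : ℕ, p.Prime ∧
    q.Prime ∧ p < q ∧ p % 4 = 3 ∧ q % 4 = 3 ∧ D = p * q ∧ z < p ∧ p ∉ WZ a Z ∧
    (p : ℝ) ≤ (Z : ℝ) ^ (cc a / 4)) := ⟨_, fun _ => Iff.rfl⟩
  have hstep : ∀ X : ℕ, ((X0 : ℝ) + X1 + X2) + √(Z : ℝ) ≤ X →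
      (NR G ⌊(1 + η) * X⌋₊ : ℝ) ≤ NR G X + (δ / 2 * La Z / Real.log Z) * η * X := by
    intro X hX
    have p0 : (0 : ℝ) ≤ X0 := by positivity
    have p1 : (0 : ℝ) ≤ X1 := by positivity
    have p2 : (0 : ℝ) ≤ X2 := by positivity
    have hXX0 : X0 ≤ X := by
      have : (X0 : ℝ) ≤ X := by linarith
      exact_mod_cast this
    have hXX1 : X1 ≤ X := by
      have : (X1 : ℝ) ≤ X := by linarith
      exact_mod_cast this
    have hXX2 : X2 ≤ X := by
      have : (X2 : ℝ) ≤ X := by linarith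
      exact_mod_cast this
    have hXZ : √(Z : ℝ) ≤ X := by linarith
    have hs1 : 1 < √(Z : ℝ) := by
      rw [Real.lt_sqrt (by norm_num)]
      linarith
    have hXr : (1 : ℝ) < X := by linarith
    have hle : X ≤ ⌊(1 + η) * (X : ℝ)⌋₊ := by
      apply Nat.le_floor
      have : (0 : ℝ) ≤ X := by positivity
      nlinarith
    have h2 := NR_add G hle
    have h2' : (NR G ⌊(1 + η) * (X : ℝ)⌋₊ : ℝ) ≤
        NR G X + (((Finset.Ioc X ⌊(1 + η) * (X : ℝ)⌋₊).filter G).card : ℝ) := by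
      exact_mod_cast h2
    refine h2'.trans ?_
    have hrhs : 0 ≤ (δ / 2 * La Z / Real.log Z) * η * X := by positivity
    rcases le_or_gt Z X with hcase | hcase
    · have : (Finset.Ioc X ⌊(1 + η) * (X : ℝ)⌋₊).filter G = ∅ := by
        rw [filter_eq_empty_iff]
        intro D hD hDG
        rw [mem_Ioc] at hD
        have := ((hG D).1 hDG).1
        omega
      rw [this, card_empty, Nat.cast_zero]
      linarith
    have hlog : Real.log Z / 2 ≤ Real.log X := by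
      have e1 := Real.log_le_log (by linarith) hXZ
      rwa [Real.log_sqrt (by linarith)] at e1
    have h3 := hX0 X hXX0 (hX2 X hXX2)
    have hsub : (Finset.Ioc X ⌊(1 + η) * (X : ℝ)⌋₊).filter G ⊆
        (Finset.Ioc X ⌊(1 + η) * (X : ℝ)⌋₊).filter (fun D => (∃ p ∈ RR a z X, ∃ q : ℕ, q.Prime ∧
          q % 4 = 3 ∧ D = p * q) ∧ BD X D) := by
      intro D hD
      rw [mem_filter, hG] at hD
      rw [mem_filter]
      obtain ⟨hD1, hDZ, hDG, p, q, hp, hq, hpq, hp4, hq4, rfl, hzp, hpW, hpZ⟩ := hD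
      have hpX : (p : ℝ) ≤ (X : ℝ) ^ (cc a / 2) := by
        refine hpZ.trans ?_
        calc (Z : ℝ) ^ (cc a / 4) = (√(Z : ℝ)) ^ (cc a / 2) := by
              rw [Real.sqrt_eq_rpow, ← Real.rpow_mul (by linarith)]
              congr 1
              ring
          _ ≤ (X : ℝ) ^ (cc a / 2) := Real.rpow_le_rpow hsZ hXZ (by linarith)
      have hpX1 : (X : ℝ) ^ (cc a / 2) ≤ X := by
        calc (X : ℝ) ^ (cc a / 2) ≤ (X : ℝ) ^ (1 : ℝ) :=
              Real.rpow_le_rpow_of_exponent_le hXr.le (by linarith)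
          _ = X := Real.rpow_one _
      have hpX2 : p ≤ X := by exact_mod_cast hpX.trans hpX1
      refine ⟨hD1, ⟨p, ?_, q, hq, hq4, rfl⟩, ?_⟩
      · simp only [RR, mem_filter, mem_Icc]
        exact ⟨⟨hp.one_lt.le, hpX2⟩, hp, hp4, hzp, fun h => hpW (hW X hXZ hcase.le h), hpX⟩
      · have hfd := isFund_pq hp hq hpq.ne hp4 hq4
        have hsq : Squarefree (p * q) :=
          (Nat.squarefree_mul ((Nat.coprime_primes hp hq).2 hpq.ne)).2 ⟨hp.squarefree, hq.squarefree⟩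
        have hDof := Dof_semi hp4 hq4
        have h5 := hX1 X hXX1 (p * q) hfd.1 hsq hDG
        rw [hDof] at h5
        refine (h5 (mem_Ioc.1 hD1).1 ?_).2
        have e1 := (mem_Ioc.1 hD1).2
        have e2 : ((⌊(1 + η) * (X : ℝ)⌋₊ : ℕ) : ℝ) ≤ (1 + η) * (X : ℝ) :=
          Nat.floor_le (by positivity)
        have e3 : ((p * q : ℕ) : ℝ) ≤ (⌊(1 + η) * (X : ℝ)⌋₊ : ℝ) := by exact_mod_cast e1
        have e5 : ((p * q : ℕ) : ℝ) ≤ 2 * (X : ℝ) := by
          have : (0 : ℝ) ≤ X := by positivity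
          nlinarith
        exact_mod_cast e5
    have h6 : (((Finset.Ioc X ⌊(1 + η) * (X : ℝ)⌋₊).filter G).card : ℝ) ≤
        δ / 4 * η * X * SR a z X / Real.log X := by
      refine le_trans ?_ h3
      exact_mod_cast card_le_card hsub
    have h7 : SR a z X ≤ La Z := by
      unfold SR La
      apply sum_le_sum_of_subset_of_nonneg
      · intro p hp
        simp only [RR, mem_filter, mem_Icc] at hp
        rw [mem_P3]
        exact ⟨by omega, hp.2.1, hp.2.2.1⟩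
      · intro p _ _
        positivity
    have h8 : δ / 4 * η * X * SR a z X / Real.log X ≤ (δ / 2 * La Z / Real.log Z) * η * X := by
      calc δ / 4 * η * X * SR a z X / Real.log X ≤ δ / 4 * η * X * La Z / (Real.log Z / 2) := by
            apply div_le_div₀ (by positivity) _ (by positivity) hlog
            gcongr
        _ = (δ / 2 * La Z / Real.log Z) * η * X := by
            field_simp
            ring
    linarith
  have hit := PFh.iter (NR G) (NR_le G) (NR_mono G) η (δ / 2 * La Z / Real.log Z)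
    (((X0 : ℝ) + X1 + X2) + √(Z : ℝ)) hη hη1 (by positivity) (by positivity) hstep Z
  -- the others
  obtain ⟨T, hT⟩ : ∃ T : Finset ℕ, T = Icc 1 z ∪ (WZ a Z ∪
    (Finset.Ioc ⌊(Z : ℝ) ^ ((1 : ℝ) / 2 ^ m)⌋₊ ⌊(Z : ℝ)⌋₊).filter Nat.Prime) := ⟨_, rfl⟩
  have hTs : ∑ p ∈ T.filter Nat.Prime, 1 / (p : ℝ) ≤ (z : ℝ) + L + m * L := by
    have h9 : ∑ p ∈ Icc 1 z, 1 / (p : ℝ) ≤ z := by
      calc ∑ p ∈ Icc 1 z, 1 / (p : ℝ) ≤ ∑ _p ∈ Icc 1 z, (1 : ℝ) := by
            apply sum_le_sum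
            intro p hp
            rw [mem_Icc] at hp
            have : (1 : ℝ) ≤ p := by exact_mod_cast hp.1
            rw [div_le_one (by linarith)]
            exact this
        _ = z := by simp
    have h10 := WZ_sum hCH1 hu
    have h11 := block L hL0.le hCH1 m (Z : ℝ) (by linarith)
    calc ∑ p ∈ T.filter Nat.Prime, 1 / (p : ℝ) ≤ ∑ p ∈ T, 1 / (p : ℝ) :=
          sum_le_sum_of_subset_of_nonneg (filter_subset _ _) (fun p _ _ => by positivity)
      _ ≤ ∑ p ∈ Icc 1 z, 1 / (p : ℝ) + ∑ p ∈ WZ a Z ∪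
            (Finset.Ioc ⌊(Z : ℝ) ^ ((1 : ℝ) / 2 ^ m)⌋₊ ⌊(Z : ℝ)⌋₊).filter Nat.Prime, 1 / (p : ℝ) := by
          rw [hT]
          exact sum_un_le _ _ _ (fun p => by positivity)
      _ ≤ ∑ p ∈ Icc 1 z, 1 / (p : ℝ) + (∑ p ∈ WZ a Z, 1 / (p : ℝ) + ∑ p ∈
            (Finset.Ioc ⌊(Z : ℝ) ^ ((1 : ℝ) / 2 ^ m)⌋₊ ⌊(Z : ℝ)⌋₊).filter Nat.Prime,
              1 / (p : ℝ)) := by
          gcongr
          exact sum_un_le _ _ _ (fun p => by positivity)
      _ ≤ (z : ℝ) + L + m * L := by linarith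
  have hcT := cnt_T hL0 hCH3 hZ16 T
  have hcov : (Finset.Ioc 0 Z).filter (fun D => Semi D ∧ ¬ GE D) ⊆
      (Finset.Ioc 0 Z).filter G ∪ (Finset.Ioc 0 Z).filter (fun D => ∃ p q : ℕ, p ∈ T ∧ p.Prime ∧
        q.Prime ∧ p < q ∧ D = p * q) := by
    intro D hD
    rw [mem_filter] at hD
    obtain ⟨hD1, ⟨p, q, hp, hq, hpq, hp4, hq4, rfl⟩, hDG⟩ := hD
    rw [mem_union, mem_filter, mem_filter]
    by_cases hpT : p ∈ T
    · exact Or.inr ⟨hD1, p, q, hpT, hp, hq, hpq, rfl⟩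
    · left
      rw [hT, mem_union, mem_union, mem_filter, mem_Ioc, mem_Icc] at hpT
      push Not at hpT
      obtain ⟨hT1, hT2, hT3⟩ := hpT
      refine ⟨hD1, (hG _).2 ⟨(mem_Ioc.1 hD1).2, hDG, p, q, hp, hq, hpq, hp4, hq4, rfl,
        hT1 hp.one_lt.le, hT2, ?_⟩⟩
      by_contra hcon
      push Not at hcon
      refine hT3 ⟨?_, ?_⟩ hp
      · rw [Nat.floor_lt (by positivity)]
        refine lt_of_le_of_lt ?_ hcon
        apply Real.rpow_le_rpow_of_exponent_le (by linarith)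
        rw [one_div, ← inv_pow, ← one_div]
        exact hm.le
      · rw [Nat.floor_natCast]
        have h5 : p * 1 ≤ p * q := Nat.mul_le_mul_left p hq.one_lt.le
        have h6 := (mem_Ioc.1 hD1).2
        omega
  have hcard : (((Finset.Ioc 0 Z).filter (fun D => Semi D ∧ ¬ GE D)).card : ℝ) ≤
      (NR G Z : ℝ) + (((Finset.Ioc 0 Z).filter (fun D => ∃ p q : ℕ, p ∈ T ∧ p.Prime ∧
        q.Prime ∧ p < q ∧ D = p * q)).card : ℝ) := by
    have := (card_le_card hcov).trans (card_union_le _ _)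
    unfold NR
    exact_mod_cast this
  have e1 : 2 * (δ / 2 * La Z / Real.log Z) * (Z : ℝ) = δ * La Z * (Z / Real.log Z) := by
    field_simp
  have e2 : 4 * L * Z / Real.log Z * ∑ p ∈ T.filter Nat.Prime, 1 / (p : ℝ) ≤
      4 * L * ((z : ℝ) + L + m * L) * (Z / Real.log Z) := by
    calc 4 * L * Z / Real.log Z * ∑ p ∈ T.filter Nat.Prime, 1 / (p : ℝ) ≤
          4 * L * Z / Real.log Z * ((z : ℝ) + L + m * L) := by gcongr
      _ = _ := by ring
  rw [e1] at hit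
  have e3 : (1 + 4 * L * ((z : ℝ) + L + m * L)) * (Z / Real.log Z) =
      1 * Z / Real.log Z + 4 * L * ((z : ℝ) + L + m * L) * (Z / Real.log Z) := by ring
  rw [e3]
  linarith


/-- the limit for the products of two primes -/
theorem semi_tendsto (hBH : P2_BH) (hRC : P2_RC) (a : ℝ) (ha : 2 < a)
    (BD : ℕ → ℕ → Prop) (hAS : ASg a BD) (GE : ℕ → Prop) (hE : Excg BD GE) :
    Tendsto (fun X : ℕ => (((Finset.Ioc 0 X).filter (fun D => Semi D ∧ ¬ GE D)).card : ℝ) /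
      (((Finset.Ioc 0 X).filter Semi).card : ℝ)) atTop (nhds 0) := by
  rw [Metric.tendsto_atTop]
  intro κ hκ
  obtain ⟨C, hC, Z1, hZ1⟩ := upper hBH hRC a ha BD hAS GE hE
    (κ / 64) (by positivity)
  obtain ⟨Z2, hZ2⟩ := lower
  obtain ⟨L, hL0, hCH1, -, -⟩ := T2_CH
  have ht : Tendsto (fun X : ℕ => La ⌊(X : ℝ) ^ ((1 : ℝ) / 2 ^ 2)⌋₊) atTop atTop :=
    La_tendsto.comp (tendsto_nat_floor_atTop.comp
      ((tendsto_rpow_atTop (by norm_num)).comp tendsto_natCast_atTop_atTop))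
  obtain ⟨Z3, hZ3⟩ := eventually_atTop.1 (ht.eventually_ge_atTop
    ((κ / 64 * (2 * L) + C) / (κ / 64) + 1))
  refine ⟨max (max Z1 Z2) (max Z3 3), fun Z hZ => ?_⟩
  have h1 := hZ1 Z ((le_max_left _ _).trans ((le_max_left _ _).trans hZ))
  have h2 := hZ2 Z ((le_max_right _ _).trans ((le_max_left _ _).trans hZ))
  have h3 := hZ3 Z ((le_max_left _ _).trans ((le_max_right _ _).trans hZ))
  have hZ3' : (3 : ℝ) ≤ Z := by
    exact_mod_cast (le_max_right _ _).trans ((le_max_right _ _).trans hZ)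
  have hlZ : 0 < Real.log Z := Real.log_pos (by linarith)
  obtain ⟨A, hA⟩ : ∃ A, A = La ⌊(Z : ℝ) ^ ((1 : ℝ) / 2 ^ 2)⌋₊ := ⟨_, rfl⟩
  rw [← hA] at h2 h3
  have h4' : La Z ≤ A + 2 * L := by
    have h5 := block L hL0.le hCH1 2 (Z : ℝ) (by linarith)
    have hsub : P3 Z ⊆ P3 ⌊(Z : ℝ) ^ ((1 : ℝ) / 2 ^ 2)⌋₊ ∪
        (Finset.Ioc ⌊(Z : ℝ) ^ ((1 : ℝ) / 2 ^ 2)⌋₊ ⌊(Z : ℝ)⌋₊).filter Nat.Prime := by
      intro p hp
      rw [mem_P3] at hp
      rw [mem_union, mem_P3, mem_filter, mem_Ioc, Nat.floor_natCast]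
      by_cases h6 : p ≤ ⌊(Z : ℝ) ^ ((1 : ℝ) / 2 ^ 2)⌋₊
      · exact Or.inl ⟨h6, hp.2⟩
      · exact Or.inr ⟨⟨not_le.1 h6, hp.1⟩, hp.2.1⟩
    have h6 : La Z ≤ La ⌊(Z : ℝ) ^ ((1 : ℝ) / 2 ^ 2)⌋₊ +
        ∑ p ∈ (Finset.Ioc ⌊(Z : ℝ) ^ ((1 : ℝ) / 2 ^ 2)⌋₊ ⌊(Z : ℝ)⌋₊).filter Nat.Prime,
          1 / (p : ℝ) := by
      unfold La
      exact (sum_le_sum_of_subset_of_nonneg hsub (fun p _ _ => by positivity)).trans
        (sum_un_le _ _ _ (fun p => by positivity))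
    rw [← hA] at h6
    push_cast at h5
    linarith
  obtain ⟨V, hV⟩ : ∃ V, V = (Z : ℝ) / Real.log Z := ⟨_, rfl⟩
  have hV0 : 0 < V := by rw [hV]; positivity
  rw [← hV] at h1 h2
  have h5 : (κ / 64 * (2 * L) + C) + κ / 64 ≤ κ / 64 * A := by
    have e : κ / 64 * ((κ / 64 * (2 * L) + C) / (κ / 64) + 1) =
        (κ / 64 * (2 * L) + C) + κ / 64 := by
      field_simp
    rw [← e]
    gcongr
  have hA0 : 0 < A := by
    have h6 : 0 < κ / 64 * A := lt_of_lt_of_le (by positivity) h5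
    by_contra hcon
    push Not at hcon
    have : κ / 64 * A ≤ 0 := mul_nonpos_of_nonneg_of_nonpos (by positivity) hcon
    linarith
  have hden : 0 < (((Finset.Ioc 0 Z).filter Semi).card : ℝ) :=
    lt_of_lt_of_le (by positivity) h2
  rw [Real.dist_eq, sub_zero, abs_of_nonneg (by positivity), div_lt_iff₀ hden]
  have h7 : κ / 64 * La Z * V + C * V ≤ 2 * (κ / 64) * A * V := by
    have h8 : κ / 64 * La Z ≤ κ / 64 * (A + 2 * L) := by gcongr
    have h9 : κ / 64 * La Z + C ≤ 2 * (κ / 64) * A := by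
      nlinarith
    calc κ / 64 * La Z * V + C * V = (κ / 64 * La Z + C) * V := by ring
      _ ≤ 2 * (κ / 64) * A * V := by gcongr
  have h10 : 2 * (κ / 64) * A * V = κ / 2 * (1 / 16 * A * V) := by ring
  have h11 : κ / 2 * (1 / 16 * A * V) ≤ κ / 2 * (((Finset.Ioc 0 Z).filter Semi).card : ℝ) := by
    gcongr
  have h12 : κ / 2 * (((Finset.Ioc 0 Z).filter Semi).card : ℝ) <
      κ * (((Finset.Ioc 0 Z).filter Semi).card : ℝ) := by
    apply mul_lt_mul_of_pos_right _ hden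
    linarith
  linarith


/-- few exceptional discriminants `8 p` in a short interval -/
theorem short_8 (hBH : P2_BH) (hRC : P2_RC) (a : ℝ) (ha : 2 < a)
    (BD : ℕ → ℕ → Prop) (hAS : ASg a BD) (ε : ℝ) (hε : 0 < ε) : ∃ η : ℝ, 0 < η ∧ η ≤ 1 ∧ ∃ X0 : ℕ, ∀ X ≥ X0,
    (((Finset.Ioc X ⌊(1 + η) * X⌋₊).filter (fun D => (∃ p : ℕ, p.Prime ∧ D = 8 * p) ∧
      IsFund D ∧ BD X D)).card : ℝ) ≤ ε * η * X / Real.log X := by
  obtain ⟨hcc0, hcc1⟩ := cc_bd ha
  obtain ⟨C0, hC0, hB⟩ := hBH (cc a) hcc0 (by linarith)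
  have hC0' : (1 : ℝ) ≤ C0 := by exact_mod_cast hC0
  obtain ⟨z0, hz0⟩ := hAS C0 hC0 (ε / C0) (by positivity)
  set z := max 2 z0 with hz
  have hz2 : 2 ≤ z := le_max_left _ _
  obtain ⟨η1, hη1, H⟩ := hz0 z (le_max_right _ _)
  obtain ⟨XB, hXB⟩ := hB z hz2 a ha
  have hηpos : 0 < min η1 1 := lt_min hη1 one_pos
  refine ⟨min η1 1, hηpos, min_le_right _ _, ?_⟩
  set η := min η1 1 with hη
  have H' : ∀ r : ℕ, ∃ X0 : ℕ, ∀ X ≥ X0, ∀ ρ : ℕ → ℝ, SWt z X (PA a X) (cc a) C0 ρ →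
      FundRes z r →
      ∑ D ∈ (FD z r X η).filter (fun D => BD X D), wt ρ D ≤ ε / C0 * WW z X η ρ := by
    intro r
    by_cases hr : FundRes z r
    · obtain ⟨X0, hX0⟩ := H η hηpos (min_le_left _ _) r hr
      exact ⟨X0, fun X hX ρ hρ _ => hX0 X hX ρ hρ⟩
    · exact ⟨0, fun X _ ρ _ hr' => absurd hr' hr⟩
  choose X0 hX0 using H'
  refine ⟨max (max ((Finset.range (Qz z)).sup X0) XB) (max 65 (8 * z)), ?_⟩
  intro X hX
  have hX1 : (Finset.range (Qz z)).sup X0 ≤ X :=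
    (le_max_left _ _).trans ((le_max_left _ _).trans hX)
  have hX2 : XB ≤ X := (le_max_right _ _).trans ((le_max_left _ _).trans hX)
  have hX3 : 65 ≤ X := (le_max_left _ _).trans ((le_max_right _ _).trans hX)
  have hX4 : 8 * z ≤ X := (le_max_right _ _).trans ((le_max_right _ _).trans hX)
  obtain ⟨ρ, hρ, hρ1, hGG⟩ := hXB X hX2
  have hX17 : (65 : ℝ) ≤ X := by exact_mod_cast hX3
  have hlog : 0 < Real.log X := Real.log_pos (by linarith)
  have hGpos : 0 ≤ GG X ρ := le_trans (by positivity) hρ.low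
  set S := (Finset.Ioc X ⌊(1 + η) * X⌋₊).filter (fun D =>
    (∃ p : ℕ, p.Prime ∧ D = 8 * p) ∧ IsFund D ∧ BD X D) with hS
  have hcard : S.card = ∑ r ∈ Finset.range (Qz z), (S.filter (fun D => D % Qz z = r)).card := by
    apply Finset.card_eq_sum_card_fiberwise
    intro D _
    simp only [Finset.coe_range, Set.mem_Iio]
    exact Nat.mod_lt _ (AS1h.Qz_pos z)
  have hQ : (0 : ℝ) < Qz z := by exact_mod_cast AS1h.Qz_pos z
  have hW : 0 ≤ ε / C0 * WW z X η ρ := by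
    unfold WW
    positivity
  have hle : ∀ r ∈ Finset.range (Qz z),
      ((S.filter (fun D => D % Qz z = r)).card : ℝ) ≤
        if (∀ q ∈ (Finset.Icc 3 z).filter Nat.Prime, ¬ q ∣ r) then ε / C0 * WW z X η ρ else 0 := by
    intro r hr
    by_cases hfr : FundRes z r ∧ ∀ q ∈ (Finset.Icc 3 z).filter Nat.Prime, ¬ q ∣ r
    · rw [if_pos hfr.2]
      refine le_trans ?_ (hX0 r X (le_trans (Finset.le_sup hr) hX1) ρ hρ hfr.1)
      have hsub : (S.filter (fun D => D % Qz z = r)) ⊆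
          ((FD z r X η).filter (fun D => BD X D)) := by
        intro D hD
        simp only [hS, FD, DD, Finset.mem_filter] at hD ⊢
        exact ⟨⟨⟨hD.1.1, hD.2⟩, hD.1.2.2.1⟩, hD.1.2.2.2⟩
      have e1 : ((S.filter (fun D => D % Qz z = r)).card : ℝ) =
          ∑ D ∈ S.filter (fun D => D % Qz z = r), wt ρ D := by
        rw [Finset.sum_congr rfl (g := fun _ => (1 : ℝ)), Finset.sum_const, nsmul_eq_mul, mul_one]
        intro D hD
        simp only [hS, Finset.mem_filter, Finset.mem_Ioc] at hD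
        obtain ⟨p, hp, hDp⟩ := hD.1.2.1
        rw [hDp]
        exact wt_one8 hX3 hcc1 hρ hρ1 (by rw [← hDp]; exact hD.1.1.1) hp
      rw [e1]
      refine Finset.sum_le_sum_of_subset_of_nonneg hsub ?_
      intro D hD _
      simp only [FD, DD, Finset.mem_filter, Finset.mem_Ioc] at hD
      exact wt_nonneg (by omega) (by linarith) hρ D (by omega)
    · have hemp : (S.filter (fun D => D % Qz z = r)) = ∅ := by
        rw [Finset.filter_eq_empty_iff]
        intro D hD hDr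
        apply hfr
        simp only [hS, Finset.mem_filter, Finset.mem_Ioc] at hD
        obtain ⟨p, hp, hDp⟩ := hD.2.1
        rw [← hDr]
        refine ⟨AS1h.fundRes z D hD.2.2.1, ?_⟩
        rw [hDp]
        exact res_cop8 (by rw [← hDp]; exact hD.1.1) hp hX4
      rw [hemp, Finset.card_empty, Nat.cast_zero]
      split_ifs
      · exact hW
      · exact le_rfl
  rw [hcard]
  push_cast
  refine le_trans (Finset.sum_le_sum hle) ?_
  rw [← Finset.sum_filter, Finset.sum_const, nsmul_eq_mul]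
  have hRC' : ∀ inst : DecidablePred fun r : ℕ =>
      ∀ q ∈ (Finset.Icc 3 z).filter Nat.Prime, ¬ q ∣ r,
      (((@Finset.filter ℕ (fun r : ℕ => ∀ q ∈ (Finset.Icc 3 z).filter Nat.Prime, ¬ q ∣ r) inst
        (Finset.range (Qz z))).card : ℕ) : ℝ) =
      Qz z * ∏ q ∈ (Finset.Icc 3 z).filter Nat.Prime, (1 - (1 : ℝ) / q) := by
    intro inst
    have h5 := hRC z
    convert h5
  refine (le_of_eq (congrArg (fun t : ℝ => t * (ε / C0 * WW z X η ρ)) (hRC' _))).trans ?_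
  show (Qz z : ℝ) * (∏ q ∈ (Finset.Icc 3 z).filter Nat.Prime, (1 - (1 : ℝ) / q)) *
    (ε / C0 * WW z X η ρ) ≤ ε * η * X / Real.log X
  unfold WW
  have e2 : (Qz z : ℝ) * (∏ q ∈ (Finset.Icc 3 z).filter Nat.Prime, (1 - (1 : ℝ) / q)) *
      (ε / C0 * (η * X / Qz z * GG X ρ)) = ε / C0 * (η * X) *
        (GG X ρ * ∏ q ∈ (Finset.Icc 3 z).filter Nat.Prime, (1 - (1 : ℝ) / q)) := by
    field_simp
  rw [e2]
  calc ε / C0 * (η * X) *
        (GG X ρ * ∏ q ∈ (Finset.Icc 3 z).filter Nat.Prime, (1 - (1 : ℝ) / q))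
      ≤ ε / C0 * (η * X) * (C0 / Real.log X) :=
        mul_le_mul_of_nonneg_left hGG (by positivity)
    _ = ε * η * X / Real.log X := by
        field_simp


theorem two_tendsto (hBH : P2_BH) (hRC : P2_RC) (a : ℝ) (ha : 2 < a)
    (BD : ℕ → ℕ → Prop) (hAS : ASg a BD) (GE : ℕ → Prop) (hE : Excg BD GE) :
    Tendsto (fun X : ℕ => (((Finset.Ioc 0 X).filter (fun D => Two D ∧ ¬ GE D)).card : ℝ) /
      (((Finset.Ioc 0 X).filter Two).card : ℝ)) atTop (nhds 0) := by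
  rw [Metric.tendsto_atTop]
  intro κ hκ
  obtain ⟨R, hR⟩ : ∃ R : ℕ → Prop, ∀ D, R D ↔ ∃ d : ℕ, Two d ∧ ¬ GE d ∧ D = 4 * d :=
    ⟨_, fun _ => Iff.rfl⟩
  obtain ⟨C, hC0, hC⟩ : ∃ C : ℝ, 0 ≤ C ∧ ∀ Z : ℕ, 2 ≤ Z →
      (NR R Z : ℝ) ≤ 4 * (κ / 2000) * Z / Real.log Z + C + 2 * √(Z : ℝ) := by
    obtain ⟨η, hη, hη1, X0, hX0⟩ := short_8 hBH hRC a ha BD hAS (κ / 2000) (by positivity)
    obtain ⟨X1, hX1⟩ := hE
    refine ⟨6 / η + 2 * ((X0 : ℝ) + X1) + 2, by positivity, fun Z hZ => ?_⟩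
    have hZ2 : (2 : ℝ) ≤ Z := by exact_mod_cast hZ
    have hlZ : 0 < Real.log Z := Real.log_pos (by linarith)
    have hsZ : 0 ≤ √(Z : ℝ) := Real.sqrt_nonneg _
    have hstep : ∀ X : ℕ, ((X0 : ℝ) + X1) + √(Z : ℝ) ≤ X →
        (NR R ⌊(1 + η) * X⌋₊ : ℝ) ≤ NR R X + 2 * (κ / 2000) / Real.log Z * η * X := by
      intro X hX
      have p0 : (0 : ℝ) ≤ X0 := by positivity
      have p1 : (0 : ℝ) ≤ X1 := by positivity
      have hXX0 : X0 ≤ X := by
        have : (X0 : ℝ) ≤ X := by linarith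
        exact_mod_cast this
      have hXX1 : X1 ≤ X := by
        have : (X1 : ℝ) ≤ X := by linarith
        exact_mod_cast this
      have hXZ : √(Z : ℝ) ≤ X := by linarith
      have hlog : Real.log Z / 2 ≤ Real.log X := by
        have e1 := Real.log_le_log (Real.sqrt_pos.2 (by linarith : (0 : ℝ) < Z)) hXZ
        rwa [Real.log_sqrt (by linarith)] at e1
      have hle : X ≤ ⌊(1 + η) * (X : ℝ)⌋₊ := by
        apply Nat.le_floor
        have : (0 : ℝ) ≤ X := by positivity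
        nlinarith
      have h2 := NR_add R hle
      have h3 := hX0 X hXX0
      have h2' : (NR R ⌊(1 + η) * (X : ℝ)⌋₊ : ℝ) ≤
          NR R X + (((Finset.Ioc X ⌊(1 + η) * (X : ℝ)⌋₊).filter R).card : ℝ) := by
        exact_mod_cast h2
      have hsub : (Finset.Ioc X ⌊(1 + η) * (X : ℝ)⌋₊).filter R ⊆
          (Finset.Ioc X ⌊(1 + η) * (X : ℝ)⌋₊).filter (fun D => (∃ p : ℕ, p.Prime ∧ D = 8 * p) ∧
            IsFund D ∧ BD X D) := by
        intro D hD
        rw [mem_filter, hR] at hD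
        rw [mem_filter]
        obtain ⟨hD1, d, ⟨p, hp, hp4, rfl⟩, hg, rfl⟩ := hD
        have hsq : Squarefree (2 * p) := by
          rw [Nat.squarefree_mul]
          · exact ⟨Nat.prime_two.squarefree, hp.squarefree⟩
          · rw [Nat.coprime_primes Nat.prime_two hp]
            rintro rfl
            omega
        have h1 : 1 < 2 * p := by
          have := hp.two_le
          omega
        have hDof : Dof (2 * p) = 4 * (2 * p) := by
          unfold Dof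
          rw [if_neg]
          omega
        refine ⟨hD1, ⟨p, hp, by ring⟩, ?_⟩
        have h5 := hX1 X hXX1 (2 * p) h1 hsq hg
        rw [hDof] at h5
        refine h5 (mem_Ioc.1 hD1).1 ?_
        have e1 := (mem_Ioc.1 hD1).2
        have e2 : ((⌊(1 + η) * (X : ℝ)⌋₊ : ℕ) : ℝ) ≤ (1 + η) * (X : ℝ) :=
          Nat.floor_le (by positivity)
        have e3 : ((4 * (2 * p) : ℕ) : ℝ) ≤ (⌊(1 + η) * (X : ℝ)⌋₊ : ℝ) := by exact_mod_cast e1
        have e5 : ((4 * (2 * p) : ℕ) : ℝ) ≤ 2 * (X : ℝ) := by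
          have : (0 : ℝ) ≤ X := by positivity
          nlinarith
        exact_mod_cast e5
      have h3' : (((Finset.Ioc X ⌊(1 + η) * (X : ℝ)⌋₊).filter R).card : ℝ) ≤
          κ / 2000 * η * X / Real.log X := by
        refine le_trans ?_ h3
        exact_mod_cast card_le_card hsub
      have h4 : κ / 2000 * η * X / Real.log X ≤ 2 * (κ / 2000) / Real.log Z * η * X := by
        calc κ / 2000 * η * X / Real.log X ≤ κ / 2000 * η * X / (Real.log Z / 2) := by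
              apply div_le_div_of_nonneg_left (by positivity) (by positivity) hlog
          _ = 2 * (κ / 2000) / Real.log Z * η * X := by
              field_simp
      linarith
    have h5 := PFh.iter (NR R) (NR_le R) (NR_mono R) η (2 * (κ / 2000) / Real.log Z)
      (((X0 : ℝ) + X1) + √(Z : ℝ)) hη hη1 (by positivity) (by positivity) hstep Z
    have h6 : 2 * (2 * (κ / 2000) / Real.log Z) * (Z : ℝ) = 4 * (κ / 2000) * Z / Real.log Z := by
      ring
    rw [h6] at h5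
    linarith
  obtain ⟨Y0, hY0⟩ := eventually_atTop.1 P3_lower
  obtain ⟨Y1, hY1⟩ := PFh.sqrt_small C (κ / 200) (by positivity)
  refine ⟨max (max (2 * Y0 + 1) Y1) 8, fun Y hY => ?_⟩
  have hYa : 2 * Y0 + 1 ≤ Y := le_trans (le_max_left _ _) (le_trans (le_max_left _ _) hY)
  have hYb : Y1 ≤ Y := le_trans (le_max_right _ _) (le_trans (le_max_left _ _) hY)
  have hYc : 8 ≤ Y := le_trans (le_max_right _ _) hY
  have hYr : (8 : ℝ) ≤ Y := by exact_mod_cast hYc
  have hl : 0 < Real.log Y := Real.log_pos (by linarith)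
  -- lower bound
  have hlow : (1 / 32 : ℝ) * (Y / Real.log Y) ≤ (((Finset.Ioc 0 Y).filter Two).card : ℝ) := by
    have h1 := hY0 (Y / 2) (by omega)
    have h2 : (P3 (Y / 2)).card ≤ ((Finset.Ioc 0 Y).filter Two).card := by
      refine card_le_card_of_injOn (fun p => 2 * p) ?_ ?_
      · intro p hp
        rw [mem_coe, mem_P3] at hp
        rw [mem_coe, mem_filter, mem_Ioc]
        have h9 := hp.2.1.pos
        have h10 := hp.1
        refine ⟨⟨?_, ?_⟩, p, hp.2.1, hp.2.2, rfl⟩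
        · show 0 < 2 * p
          omega
        · show 2 * p ≤ Y
          omega
      · intro p _ q _ h
        have : 2 * p = 2 * q := h
        omega
    have h3 : ((P3 (Y / 2)).card : ℝ) ≤ (((Finset.Ioc 0 Y).filter Two).card : ℝ) := by
      exact_mod_cast h2
    refine le_trans ?_ (h1.trans h3)
    have h4 : (2 : ℝ) ≤ ((Y / 2 : ℕ) : ℝ) := by exact_mod_cast (by omega : 2 ≤ Y / 2)
    have h5 : 0 < Real.log ((Y / 2 : ℕ) : ℝ) := Real.log_pos (by linarith)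
    have h6 : ((Y / 2 : ℕ) : ℝ) ≤ Y := by exact_mod_cast Nat.div_le_self Y 2
    have h7 : Real.log ((Y / 2 : ℕ) : ℝ) ≤ Real.log Y := Real.log_le_log (by linarith) h6
    have h8 : (Y : ℝ) ≤ 4 * ((Y / 2 : ℕ) : ℝ) := by
      exact_mod_cast (by omega : Y ≤ 4 * (Y / 2))
    calc (1 / 32 : ℝ) * (Y / Real.log Y) ≤ 1 / 32 * (4 * ((Y / 2 : ℕ) : ℝ) /
          Real.log ((Y / 2 : ℕ) : ℝ)) := by
          apply mul_le_mul_of_nonneg_left _ (by norm_num)
          exact div_le_div₀ (by positivity) h8 h5 h7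
      _ = 1 / 8 * (((Y / 2 : ℕ) : ℝ) / Real.log ((Y / 2 : ℕ) : ℝ)) := by ring
  have hden : 0 < (((Finset.Ioc 0 Y).filter Two).card : ℝ) :=
    lt_of_lt_of_le (by positivity) hlow
  rw [Real.dist_eq, sub_zero, abs_of_nonneg (by positivity), div_lt_iff₀ hden]
  have hcn : ((Finset.Ioc 0 Y).filter (fun d => Two d ∧ ¬ GE d)).card ≤ NR R (4 * Y) := by
    unfold NR
    refine Finset.card_le_card_of_injOn (fun d => 4 * d) ?_ ?_
    · intro d hd
      rw [Finset.mem_coe, Finset.mem_filter, Finset.mem_Ioc] at hd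
      rw [Finset.mem_coe, Finset.mem_filter, Finset.mem_Ioc, hR]
      refine ⟨⟨?_, ?_⟩, d, hd.2.1, hd.2.2, rfl⟩
      · show 0 < 4 * d
        omega
      · show 4 * d ≤ 4 * Y
        omega
    · intro d _ d' _ h
      have : 4 * d = 4 * d' := h
      omega
  have hc : (((Finset.Ioc 0 Y).filter (fun d => Two d ∧ ¬ GE d)).card : ℝ) ≤
      NR R (4 * Y) := by exact_mod_cast hcn
  have hb := hC (4 * Y) (by omega)
  have h4 : √(((4 * Y : ℕ) : ℝ)) = 2 * √(Y : ℝ) := by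
    push_cast
    rw [Real.sqrt_mul (by norm_num)]
    congr 1
    rw [show (4 : ℝ) = 2 ^ 2 by norm_num]
    exact Real.sqrt_sq (by norm_num)
  have h5 : 4 * (κ / 2000) * ((4 * Y : ℕ) : ℝ) / Real.log ((4 * Y : ℕ) : ℝ) ≤
      4 * (κ / 2000) * (4 * Y) / Real.log Y := by
    push_cast
    apply div_le_div_of_nonneg_left (by positivity) hl
    apply Real.log_le_log (by linarith)
    linarith
  have h6 := hY1 Y hYb
  have h7 : 4 * (κ / 2000) * (4 * (Y : ℝ)) / Real.log Y = (1 / 125) * (κ * (Y / Real.log Y)) := by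
    ring
  have h8 : κ / 200 * (Y : ℝ) / Real.log Y = (1 / 200) * (κ * (Y / Real.log Y)) := by ring
  have h9 : 0 < κ * (Y / Real.log Y) := by positivity
  have h10 : (1 / 32 : ℝ) * (κ * (Y / Real.log Y)) ≤
      κ * (((Finset.Ioc 0 Y).filter Two).card : ℝ) := by
    calc (1 / 32 : ℝ) * (κ * (Y / Real.log Y)) = κ * (1 / 32 * (Y / Real.log Y)) := by ring
      _ ≤ _ := mul_le_mul_of_nonneg_left hlow hκ.le
  rw [h4] at hb
  rw [h7] at h5
  rw [h8] at h6
  linarith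



end Pool.Agent.H977.RB
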