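import Pool.Agent.H977.RB.Siz
import Pool.Agent.H977.RB.Gen

/-!
# The class group without a few small primes, for 100% of the radicands
-/

set_option autoImplicit false

namespace Pool.Agent.H977.RB

open Finset Filter NumberField Pool.Agent.H38R2.CG Pool.Agent.H38R2.CG2 Pool.Agent.H38R2.CG3
open Pool.Agent.H38R2.CG.FINh
open scoped Classical

/-- The class group of every field containing `√d` is reached without the primes of `E`. -/
def GA (a : ℝ) (d : ℕ) : Prop :=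
  ∀ (K : Type) [Field K] [NumberField K], Module.finrank ℚ K = 2 → (∃ x : K, x ^ 2 = (d : K)) →
    ∀ E : Finset ℕ, 1000 * (E.card : ℝ) ≤ (Real.log d) ^ (a - 1) →
      ∀ C : ClassGroup (𝓞 K), ∃ L,
        RepAvoid K ((Real.log d) ^ a) (Real.log d / Real.log (Real.log d)) E C L

theorem MLOW_true : P2_MLOW :=
  T2_MLOW T2_SZ (T2_NB T_NB) T2_COMB T2_PAIR T2_WT (T2_V0 T2_WT) (T2_V1 T_PV T2_WT)

theorem asg (a : ℝ) (ha : 2 < a) : ASg a (BD2 a) :=
  as2 Pool.Agent.Y892.UF.AS0_true MLOW_true T2_WT a ha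

theorem excg (a : ℝ) (ha : 2 < a) : Excg (BD2 a) (GA a) := by
  obtain ⟨X1, hX1⟩ := params a ha
  obtain ⟨X2, hX2⟩ := sizes a ha
  refine ⟨max X1 X2, fun X hX d hd1 hds hg hXD hDX => ?_⟩
  have hfund := isFund_Dof hd1 hds
  refine ⟨hfund, ?_⟩
  have hd4 : (X : ℝ) / 4 ≤ d := by
    have h1 : X < 4 * d := lt_of_lt_of_le hXD (Dof_le d)
    have h2 : (X : ℝ) < 4 * d := by exact_mod_cast h1
    linarith
  have hd2 : (d : ℝ) ≤ 2 * X := by
    have h1 : d ≤ 2 * X := (le_Dof d).trans hDX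
    exact_mod_cast h1
  obtain ⟨hy, hk, hy2⟩ := hX1 X ((le_max_left _ _).trans hX) d hd4 hd2
  obtain ⟨hk1, hkn, hEE⟩ := hX2 X ((le_max_right _ _).trans hX) d hd4 hd2
  unfold GA at hg
  push Not at hg
  obtain ⟨K, iF, iN, hrank, hx, E, hE, C, hC⟩ := hg
  have hdisc : NumberField.discr K = ((Dof d : ℕ) : ℤ) := by
    rw [T_N0d K d hd1 hds hrank hx]
    unfold Dof
    split_ifs <;> simp
  by_contra hgood
  obtain ⟨L, hL⟩ := rep_of_good T_N0 (T_N1 (T_SPL T_N0)) Pool.Agent.Y892.UF.N3_true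
    Pool.Agent.Y892.UF.N4_true T_KF (T_N5b T_KF Pool.Agent.Y892.UF.N4_true) (T_N6 T_KF) a X (Dof d)
    hy2 hfund K hrank hdisc hgood hk1 hkn E (hEE E hE) _ _ hy hk C
  exact hC L hL

theorem all_lim (a : ℝ) (ha : 2 < a) :
    Tendsto (fun X : ℕ =>
      (((Finset.Icc 2 X).filter (fun d => Squarefree d ∧ ¬ GA a d)).card : ℝ) / X)
      atTop (nhds 0) :=
  finalE T2_TRIV a ha _ (asg a ha) _ (excg a ha)

theorem prime_lim (a : ℝ) (ha : 2 < a) :
    Tendsto (fun X : ℕ => (((Finset.Ioc 0 X).filter (fun D => D.Prime ∧ ¬ GA a D)).card : ℝ) /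
      (((Finset.Ioc 0 X).filter Nat.Prime).card : ℝ)) atTop (nhds 0) := by
  refine (finalEP T_NB Pool.Agent.Y892.UF.BH_true T2_RC a ha _ (asg a ha) _
    (excg a ha)).congr (fun X => ?_)
  have e : ∀ f : ℕ → Prop, (∀ d, f d → 2 ≤ d) →
      ((Finset.Icc 2 X).filter f) = ((Finset.Ioc 0 X).filter f) := by
    intro f hf
    ext d
    rw [mem_filter, mem_filter, mem_Icc, mem_Ioc]
    constructor
    · rintro ⟨⟨h1, h2⟩, h3⟩
      exact ⟨⟨by omega, h2⟩, h3⟩
    · rintro ⟨⟨h1, h2⟩, h3⟩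
      exact ⟨⟨hf d h3, h2⟩, h3⟩
  congr 2
  · have := e (fun p => p.Prime ∧ ¬ GA a p) (fun d hd => hd.1.two_le)
    convert congrArg Finset.card this
  · have := e (fun p => p.Prime) (fun d hd => hd.two_le)
    convert congrArg Finset.card this

theorem semi_lim (a : ℝ) (ha : 2 < a) :
    Tendsto (fun X : ℕ => (((Finset.Ioc 0 X).filter
      (fun D => Pool.Agent.Y892.UF.Semi D ∧ ¬ GA a D)).card : ℝ) /
      (((Finset.Ioc 0 X).filter Pool.Agent.Y892.UF.Semi).card : ℝ)) atTop (nhds 0) :=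
  semi_tendsto Pool.Agent.Y892.UF.BH_true T2_RC a ha _ (asg a ha) _ (excg a ha)

theorem two_lim (a : ℝ) (ha : 2 < a) :
    Tendsto (fun X : ℕ => (((Finset.Ioc 0 X).filter
      (fun D => Pool.Agent.Y892.UF.Two D ∧ ¬ GA a D)).card : ℝ) /
      (((Finset.Ioc 0 X).filter Pool.Agent.Y892.UF.Two).card : ℝ)) atTop (nhds 0) :=
  two_tendsto Pool.Agent.Y892.UF.BH_true T2_RC a ha _ (asg a ha) _ (excg a ha)

end Pool.Agent.H977.RB
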