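import Pool.Agent.H977.RB.Cls
import Pool.Agent.H38R2.CG2.NB

/-!
# Sizes of the parameters
-/

set_option autoImplicit false

namespace Pool.Agent.H977.RB

open Finset Filter NumberField Pool.Agent.H38R2.CG Pool.Agent.H38R2.CG2 Pool.Agent.H38R2.CG3
open scoped Classical

theorem ev_pow (a : ℝ) : ∀ᶠ L : ℝ in atTop, (L + 1) ^ (a - 1) ≤ 2 * L ^ (a - 1) := by
  have h1 : Tendsto (fun L : ℝ => (1 + L⁻¹) ^ (a - 1)) atTop (nhds 1) := by
    have h2 : Tendsto (fun L : ℝ => 1 + L⁻¹) atTop (nhds (1 + 0)) :=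
      tendsto_const_nhds.add tendsto_inv_atTop_zero
    rw [add_zero] at h2
    have h3 := h2.rpow_const (p := a - 1) (Or.inl one_ne_zero)
    rwa [Real.one_rpow] at h3
  filter_upwards [h1.eventually (ge_mem_nhds (show (1 : ℝ) < 2 by norm_num)),
    eventually_gt_atTop 0] with L h2 h3
  have e : L + 1 = (1 + L⁻¹) * L := by field_simp
  rw [e, Real.mul_rpow (by positivity) h3.le]
  exact mul_le_mul_of_nonneg_right h2 (by positivity)

theorem sizes (a : ℝ) (ha : 2 < a) : ∃ X1 : ℕ, ∀ X : ℕ, X1 ≤ X → ∀ d : ℝ, (X : ℝ) / 4 ≤ d →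
    d ≤ 2 * X → 1 ≤ kA a X ∧ 10 * kA a X ≤ (PA a X).card ∧
      ∀ E : Finset ℕ, 1000 * (E.card : ℝ) ≤ (Real.log d) ^ (a - 1) →
        32 * kA a X * E.card ≤ (PA a X).card := by
  have hcc : 0 < cc a := by
    unfold cc
    exact div_pos (by linarith) (by linarith)
  obtain ⟨X1, hX1⟩ := T2_NB T_NB a ha (8 * cc a) (by positivity)
  obtain ⟨X2, hX2⟩ := params a ha
  obtain ⟨y0, hy0⟩ := T_NB.2
  have ht : Tendsto (fun X : ℕ => Real.log (X : ℝ)) atTop atTop :=
    Real.tendsto_log_atTop.comp tendsto_natCast_atTop_atTop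
  obtain ⟨X3, hX3⟩ := Filter.eventually_atTop.1 (ht.eventually ((ev_pow a).and
    (eventually_ge_atTop (8 * (y0 : ℝ) + 9))))
  refine ⟨X1 + X2 + X3 + 4, fun X hX d hd1 hd2 => ?_⟩
  obtain ⟨hpow, hL⟩ := hX3 X (by omega)
  obtain ⟨-, -, -, -, b5, b6, b7, -⟩ := hX1 X (by omega)
  obtain ⟨-, -, hy2⟩ := hX2 X (by omega) d hd1 hd2
  have hXr : (4 : ℝ) ≤ X := by exact_mod_cast (by omega : 4 ≤ X)
  set L := Real.log (X : ℝ) with hLdef
  have hy0' : (0 : ℝ) ≤ y0 := by positivity
  have hL0 : 0 < L := by linarith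
  have hL1 : 1 ≤ L := by linarith
  have hk3 : 3 ≤ kA a X := by
    have h1 : (3 : ℝ) ≤ √L := by
      rw [Real.le_sqrt' (by norm_num)]
      linarith
    exact_mod_cast h1.trans b5
  refine ⟨by omega, ?_, fun E hE => ?_⟩
  · have : 10 * kA a X ≤ 4 * (kA a X) ^ 2 := by nlinarith
    omega
  -- the size of `y`
  have hLa : L ^ (1 : ℝ) ≤ L ^ a := Real.rpow_le_rpow_of_exponent_le hL1 (by linarith)
  rw [Real.rpow_one] at hLa
  have hy1 : L ^ a / 4 - 1 < (yA a X : ℝ) := by
    have := Nat.lt_floor_add_one (L ^ a / 4)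
    unfold yA
    linarith
  have hy8 : L ^ a / 8 ≤ (yA a X : ℝ) := by linarith
  have hyy0 : y0 ≤ yA a X := by
    have : (y0 : ℝ) ≤ yA a X := by linarith
    exact_mod_cast this
  obtain ⟨hn, -⟩ := hy0 _ hyy0
  have hyr : (2 : ℝ) ≤ yA a X := by exact_mod_cast hy2
  have hly : 0 < Real.log (yA a X) := Real.log_pos (by linarith)
  have hly2 : Real.log (yA a X) ≤ 8 * cc a * L := by
    have h1 := Real.log_le_log (by linarith) b6
    rwa [Real.log_rpow (by linarith)] at h1
  have hth : th a = 1 - 8 * cc a := rfl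
  have hk : (kA a X : ℝ) ≤ L / Real.log (yA a X) := by
    have hth0 := (th_lt_one a ha).2
    have h7 : (⌊th a * Real.log X / Real.log (yA a X)⌋₊ : ℝ) ≤
        th a * L / Real.log (yA a X) :=
      Nat.floor_le (div_nonneg (mul_nonneg hth0 hL0.le) hly.le)
    unfold kA
    push_cast
    have h8 : th a * L / Real.log (yA a X) + 1 ≤ L / Real.log (yA a X) := by
      rw [div_add_one hly.ne', div_le_div_iff_of_pos_right hly, hth]
      linarith
    linarith
  have hdlog : Real.log d ≤ L + 1 := by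
    have h1 : Real.log d ≤ Real.log (2 * X) := Real.log_le_log (by linarith) hd2
    rw [Real.log_mul (by norm_num) (by positivity)] at h1
    have := Real.log_two_lt_d9
    linarith
  have hd0 : 0 ≤ Real.log d := Real.log_nonneg (by linarith)
  have hE1 : 1000 * (E.card : ℝ) ≤ 2 * L ^ (a - 1) :=
    hE.trans ((Real.rpow_le_rpow hd0 hdlog (by linarith)).trans hpow)
  have hLL : L * L ^ (a - 1) = L ^ a := by
    rw [← Real.rpow_one_add' hL0.le (by linarith)]
    congr 1
    ring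
  have key : (32 : ℝ) * kA a X * E.card ≤ (PA a X).card := by
    calc (32 : ℝ) * kA a X * E.card ≤ 32 * (L / Real.log (yA a X)) * (2 * L ^ (a - 1) / 1000) := by
          have : (E.card : ℝ) ≤ 2 * L ^ (a - 1) / 1000 := by linarith
          gcongr
      _ = (64 / 1000 * L ^ a) / Real.log (yA a X) := by
          rw [← hLL]
          ring
      _ ≤ (9 / 10 * yA a X) / Real.log (yA a X) := by
          apply div_le_div_of_nonneg_right _ hly.le
          linarith
      _ ≤ _ := hn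
  exact_mod_cast key

end Pool.Agent.H977.RB
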